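import Mathlib

namespace Pool.Agent.Helper98.KA

/-- The index set of the hyperplanes: for every equation `j`, there are `q j * d j` of them. -/
abbrev Hyp {r : ℕ} (d q : Fin r → ℕ) : Type := Σ j : Fin r, Fin (q j) × Fin (d j)

/-- The boundary `∑ (1 - 1 / d_j) H_e` is Kawamata log terminal: for every nonempty set `S` of
hyperplanes with a common point in projective space `ℙ^n` (that is, whose linear forms have rank
at most `n`), the sum of the coefficients of the members of `S` is less than the codimension of
their intersection (the rank of their linear forms). -/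
def IsKlt {k : Type*} [Field k] {n r : ℕ} (d q : Fin r → ℕ)
    (c : Hyp d q → Fin (n + 1) → k) : Prop :=
  ∀ S : Finset (Hyp d q), S.Nonempty →
    Module.finrank k (Submodule.span k (c '' (S : Set (Hyp d q)))) ≤ n →
    ∑ e ∈ S, (1 - 1 / (d e.1 : ℚ)) <
      (Module.finrank k (Submodule.span k (c '' (S : Set (Hyp d q)))) : ℚ)

end Pool.Agent.Helper98.KA
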