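import Mathlib

namespace Pool.Agent.Helper98.KA

open Module

/-- The subspace of vectors of size at least `h`. -/
def filt {k V : Type*} [Field k] [AddCommGroup V] [Module k V] (f : V → ℕ∞) (h0 : f 0 = ⊤)
    (hadd : ∀ u v, min (f u) (f v) ≤ f (u + v)) (hsmul : ∀ (c : k) v, f v ≤ f (c • v))
    (h : ℕ∞) : Submodule k V where
  carrier := {v | h ≤ f v}
  zero_mem' := by
    change h ≤ f 0
    rw [h0]; exact le_top
  add_mem' := fun {u v} hu hv => le_trans (le_min hu hv) (hadd u v)
  smul_mem' := fun c v hv => le_trans hv (hsmul c v)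

/-- A basis adapted to the filtration defined by an ultrametric size function. -/
theorem orth_basis_aux {k : Type*} [Field k] (N : ℕ) : ∀ {V : Type*} [AddCommGroup V] [Module k V]
    [FiniteDimensional k V] (f : V → ℕ∞) (_h0 : f 0 = ⊤) (_hne : ∀ v, v ≠ 0 → f v ≠ ⊤)
    (_hadd : ∀ u v, min (f u) (f v) ≤ f (u + v)) (_hsmul : ∀ (c : k) v, f v ≤ f (c • v)),
    finrank k V = N →
    ∃ b : Basis (Fin N) k V, ∀ (h : ℕ∞) (v : V), h ≤ f v →
      v ∈ Submodule.span k (b '' {i | h ≤ f (b i)}) := by
  induction N using Nat.strong_induction_on with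
  | _ N ih =>
  intro V _ _ _ f h0 hne hadd hsmul hN
  classical
  rcases Nat.eq_zero_or_pos N with hN0 | hNpos
  · subst hN0
    have hsub : Subsingleton V := finrank_zero_iff.mp hN
    refine ⟨finBasisOfFinrankEq k V hN, fun h v _ => ?_⟩
    rw [Subsingleton.elim v 0]
    exact Submodule.zero_mem _
  have hnt : Nontrivial V := by
    rw [← finrank_pos_iff (R := k)]
    omega
  obtain ⟨v0, hv0⟩ := exists_ne (0 : V)
  -- the minimum of `f`
  obtain ⟨v1, hv1, hmin⟩ : ∃ v1 : V, v1 ≠ 0 ∧ ∀ v, f v1 ≤ f v := by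
    let S : Set ℕ∞ := Set.range f
    have hS : S.Nonempty := ⟨f 0, 0, rfl⟩
    obtain ⟨v1, hv1⟩ : sInf S ∈ S := csInf_mem hS
    have hle : ∀ v, f v1 ≤ f v := fun v => by
      rw [hv1]; exact sInf_le ⟨v, rfl⟩
    refine ⟨v1, ?_, hle⟩
    rintro rfl
    have := hle v0
    rw [h0, top_le_iff] at this
    exact hne v0 hv0 this
  set μ := f v1 with hμ
  let U : Submodule k V := filt f h0 hadd hsmul (μ + 1)
  have hμtop : μ ≠ ⊤ := hne v1 hv1
  have hUmem : ∀ v, v ∈ U ↔ μ < f v := by
    intro v
    change μ + 1 ≤ f v ↔ μ < f v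
    exact ENat.add_one_le_iff hμtop
  have hUne : U ≠ ⊤ := by
    intro h
    have : v1 ∈ U := by rw [h]; trivial
    rw [hUmem] at this
    exact lt_irrefl _ this
  have hUlt : finrank k U < N := by
    rw [← hN]
    exact Submodule.finrank_lt hUne
  obtain ⟨W, hW⟩ := U.exists_isCompl
  obtain ⟨bU, hbU⟩ := ih (finrank k U) hUlt (V := U) (fun v => f v) (by simpa using h0)
    (fun v hv => hne v (fun h => hv (Subtype.ext h)))
    (fun u v => hadd u v) (fun c v => hsmul c v) rfl
  let bW : Basis (Fin (finrank k W)) k W := finBasis k W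
  let b' : Basis (Fin (finrank k U) ⊕ Fin (finrank k W)) k V :=
    (bU.prod bW).map (Submodule.prodEquivOfIsCompl U W hW)
  have hb'l : ∀ i, b' (Sum.inl i) = (bU i : V) := by
    intro i
    simp [b', Module.Basis.prod_apply]
  have hb'r : ∀ i, b' (Sum.inr i) = (bW i : V) := by
    intro i
    simp [b', Module.Basis.prod_apply]
  have hcard : finrank k U + finrank k W = N := by
    rw [← hN]
    exact Submodule.finrank_add_eq_of_isCompl hW
  let e : Fin (finrank k U) ⊕ Fin (finrank k W) ≃ Fin N :=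
    finSumFinEquiv.trans (finCongr hcard)
  let b : Basis (Fin N) k V := b'.reindex e
  have hb : ∀ i, b (e i) = b' i := fun i => by simp [b]
  refine ⟨b, fun h v hv => ?_⟩
  by_cases hh : h ≤ μ
  · have hall : {i | h ≤ f (b i)} = Set.univ := by
      ext i
      simp only [Set.mem_ofPred_eq, Set.mem_univ, iff_true]
      exact hh.trans (hmin _)
    rw [hall, Set.image_univ, b.span_eq]
    trivial
  · have hvU : v ∈ U := by
      rw [hUmem]
      exact lt_of_lt_of_le (not_le.mp hh) hv
    have h1 := hbU h ⟨v, hvU⟩ hv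
    have h2 : v ∈ Submodule.map U.subtype (Submodule.span k (bU '' {i | h ≤ f (bU i : V)})) :=
      ⟨⟨v, hvU⟩, h1, rfl⟩
    rw [Submodule.map_span] at h2
    refine Submodule.span_mono ?_ h2
    rintro _ ⟨_, ⟨i, hi, rfl⟩, rfl⟩
    refine ⟨e (Sum.inl i), ?_, ?_⟩
    · change h ≤ f (b (e (Sum.inl i)))
      rw [hb, hb'l]
      exact hi
    · rw [hb, hb'l]
      rfl

theorem orth_basis {k V : Type*} [Field k] [AddCommGroup V] [Module k V]
    [FiniteDimensional k V] (N : ℕ) (hN : finrank k V = N)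
    (f : V → ℕ∞) (h0 : f 0 = ⊤) (hne : ∀ v, v ≠ 0 → f v ≠ ⊤)
    (hadd : ∀ u v, min (f u) (f v) ≤ f (u + v)) (hsmul : ∀ (c : k) v, f v ≤ f (c • v)) :
    ∃ b : Basis (Fin N) k V, ∀ (h : ℕ∞) (v : V), h ≤ f v →
      v ∈ Submodule.span k (b '' {i | h ≤ f (b i)}) :=
  orth_basis_aux N f h0 hne hadd hsmul hN

/-- The counting inequality behind the divisibility and degree estimates. -/
theorem comb_ineq {k V E : Type*} [Field k] [AddCommGroup V] [Module k V]
    [FiniteDimensional k V] [Fintype E] (n : ℕ)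
    (c : E → V) (wt : E → ℚ) (hwt : ∀ e, 0 < wt e)
    (klt : ∀ F : Finset E, F.Nonempty → finrank k (Submodule.span k (c '' (F : Set E))) ≤ n →
      ∑ e ∈ F, wt e < (finrank k (Submodule.span k (c '' (F : Set E))) : ℚ))
    (f : V → ℕ∞) (h0 : f 0 = ⊤)
    (hadd : ∀ u v, min (f u) (f v) ≤ f (u + v)) (hsmul : ∀ (c : k) v, f v ≤ f (c • v))
    (hz : ∃ v, f v = 0)
    (b : Basis (Fin (n + 1)) k V)
    (hb : ∀ (h : ℕ∞) (v : V), h ≤ f v → v ∈ Submodule.span k (b '' {i | h ≤ f (b i)}))
    (T : E → ℕ) (hT : ∀ e, f (c e) = T e) (τ : Fin (n + 1) → ℕ) (hτ : ∀ a, f (b a) = τ a) :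
    (∑ a, τ a = 0 ∧ ∑ e, wt e * (T e : ℚ) = 0) ∨ ∑ e, wt e * (T e : ℚ) < ((∑ a, τ a : ℕ) : ℚ) := by
  classical
  let S : ℕ → Finset (Fin (n + 1)) := fun h => Finset.univ.filter (fun a => h < τ a)
  let G : ℕ → Finset E := fun h => Finset.univ.filter (fun e => h < T e)
  have hcast : ∀ h t : ℕ, h < t ↔ ((h + 1 : ℕ) : ℕ∞) ≤ (t : ℕ∞) := by
    intro h t
    rw [Nat.cast_le]
    omega
  have hSn : ∀ h, (S h).card ≤ n := by
    intro h
    by_contra hcon
    have hle : (S h).card ≤ n + 1 := by
      have := (S h).card_le_univ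
      simpa using this
    have huniv : S h = Finset.univ := by
      rw [← Finset.card_eq_iff_eq_univ, Fintype.card_fin]
      omega
    obtain ⟨v, hv⟩ := hz
    have hall : ∀ u : V, u ∈ filt f h0 hadd hsmul ((h + 1 : ℕ) : ℕ∞) := by
      intro u
      have : Submodule.span k (Set.range b) ≤ filt f h0 hadd hsmul ((h + 1 : ℕ) : ℕ∞) := by
        rw [Submodule.span_le]
        rintro _ ⟨a, rfl⟩
        change ((h + 1 : ℕ) : ℕ∞) ≤ f (b a)
        rw [hτ, ← hcast]
        have : a ∈ S h := by rw [huniv]; exact Finset.mem_univ _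
        simpa [S] using this
      apply this
      rw [b.span_eq]
      trivial
    have := hall v
    change ((h + 1 : ℕ) : ℕ∞) ≤ f v at this
    rw [hv] at this
    simp at this
  have hrank : ∀ h, finrank k (Submodule.span k (c '' (G h : Set E))) ≤ (S h).card := by
    intro h
    have h1 : Submodule.span k (c '' (G h : Set E)) ≤
        Submodule.span k (((S h).image b : Finset V) : Set V) := by
      rw [Submodule.span_le]
      rintro _ ⟨e, he, rfl⟩
      have he' : h < T e := by simpa [G] using he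
      have h2 := hb ((h + 1 : ℕ) : ℕ∞) (c e) (by rw [hT, ← hcast]; exact he')
      refine Submodule.span_mono ?_ h2
      rintro _ ⟨a, ha, rfl⟩
      rw [Finset.coe_image]
      refine ⟨a, ?_, rfl⟩
      have ha' : ((h + 1 : ℕ) : ℕ∞) ≤ f (b a) := ha
      rw [hτ, ← hcast] at ha'
      simpa [S] using ha'
    calc finrank k (Submodule.span k (c '' (G h : Set E))) ≤
        finrank k (Submodule.span k (((S h).image b : Finset V) : Set V)) :=
          Submodule.finrank_mono h1
      _ ≤ ((S h).image b).card := finrank_span_finset_le_card _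
      _ ≤ (S h).card := Finset.card_image_le
  have hterm : ∀ h, ∑ e ∈ G h, wt e ≤ ((S h).card : ℚ) := by
    intro h
    rcases (G h).eq_empty_or_nonempty with he | he
    · rw [he, Finset.sum_empty]; positivity
    · exact (klt _ he ((hrank h).trans (hSn h))).le.trans (by exact_mod_cast hrank h)
  have hterm' : ∀ h, (S h).Nonempty → ∑ e ∈ G h, wt e < ((S h).card : ℚ) := by
    intro h hS
    rcases (G h).eq_empty_or_nonempty with he | he
    · rw [he, Finset.sum_empty]
      exact_mod_cast hS.card_pos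
    · exact (klt _ he ((hrank h).trans (hSn h))).trans_le (by exact_mod_cast hrank h)
  obtain ⟨H, hH⟩ : ∃ H : ℕ, (∀ a, τ a ≤ H) ∧ ∀ e, T e ≤ H := by
    refine ⟨(∑ a, τ a) + ∑ e, T e, fun a => ?_, fun e => ?_⟩
    · exact (Finset.single_le_sum (f := τ) (fun _ _ => Nat.zero_le _) (Finset.mem_univ a)).trans
        (Nat.le_add_right _ _)
    · exact (Finset.single_le_sum (f := T) (fun _ _ => Nat.zero_le _) (Finset.mem_univ e)).trans
        (Nat.le_add_left _ _)
  have hcount : ∀ t ≤ H, ∑ h ∈ Finset.range H, (if h < t then (1 : ℚ) else 0) = t := by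
    intro t ht
    rw [← Finset.sum_filter]
    have : (Finset.range H).filter (fun h => h < t) = Finset.range t := by
      ext h
      simp only [Finset.mem_filter, Finset.mem_range]
      omega
    rw [this]
    simp
  have hsumT : ∑ e, wt e * (T e : ℚ) = ∑ h ∈ Finset.range H, ∑ e ∈ G h, wt e := by
    have h1 : ∀ h, ∑ e ∈ G h, wt e = ∑ e, wt e * (if h < T e then (1 : ℚ) else 0) := by
      intro h
      simp only [G, Finset.sum_filter]
      apply Finset.sum_congr rfl
      intro e _
      split_ifs <;> simp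
    rw [Finset.sum_congr rfl (fun h _ => h1 h), Finset.sum_comm]
    apply Finset.sum_congr rfl
    intro e _
    rw [← Finset.mul_sum, hcount _ (hH.2 e)]
  have hsumτ : ((∑ a, τ a : ℕ) : ℚ) = ∑ h ∈ Finset.range H, ((S h).card : ℚ) := by
    have h1 : ∀ h, ((S h).card : ℚ) = ∑ a, (if h < τ a then (1 : ℚ) else 0) := by
      intro h
      simp only [S, Finset.card_filter, Nat.cast_sum]
      apply Finset.sum_congr rfl
      intro a _
      split_ifs <;> simp
    rw [Finset.sum_congr rfl (fun h _ => h1 h), Finset.sum_comm]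
    push_cast
    apply Finset.sum_congr rfl
    intro a _
    rw [hcount _ (hH.1 a)]
  by_cases hzero : ∑ a, τ a = 0
  · left
    refine ⟨hzero, ?_⟩
    rw [hsumT]
    apply Finset.sum_eq_zero
    intro h _
    have hS0 : S h = ∅ := by
      rw [Finset.eq_empty_iff_forall_notMem]
      intro a ha
      have h1 : h < τ a := by simpa [S] using ha
      have h2 := (Finset.sum_eq_zero_iff.mp hzero) a (Finset.mem_univ a)
      omega
    have hG0 : G h = ∅ := by
      by_contra hne
      have hne' : (G h).Nonempty := Finset.nonempty_iff_ne_empty.mpr hne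
      have h1 := hterm h
      rw [hS0] at h1
      have h2 : 0 < ∑ e ∈ G h, wt e := Finset.sum_pos (fun e _ => hwt e) hne'
      simp at h1
      linarith
    rw [hG0, Finset.sum_empty]
  · right
    rw [hsumT, hsumτ]
    obtain ⟨a, ha⟩ : ∃ a, τ a ≠ 0 := by
      by_contra hall
      push Not at hall
      exact hzero (Finset.sum_eq_zero fun a _ => hall a)
    apply Finset.sum_lt_sum (fun h _ => hterm h)
    refine ⟨0, ?_, hterm' 0 ⟨a, ?_⟩⟩
    · rw [Finset.mem_range]
      have := hH.1 a
      omega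
    · simp only [S, Finset.mem_filter, Finset.mem_univ, true_and]
      omega

end Pool.Agent.Helper98.KA
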