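import Mathlib

namespace Pool.Agent.Helper98.KA

open MvPolynomial TensorProduct

open scoped IntermediateField.algebraAdjoinAdjoin in
/-- Derivations extend uniquely to a field which is algebraic over a purely transcendental
subfield (characteristic zero). -/
theorem exists_derivation {k L : Type*} [Field k] [CharZero k] [Field L] [Algebra k L]
    {ι : Type*} {x : ι → L} (hx : IsTranscendenceBasis k x) (v : ι → L) :
    ∃ δ : Derivation k L L, ∀ i, δ (x i) = v i := by
  classical
  let S := Algebra.adjoin k (Set.range x)
  let K := IntermediateField.adjoin k (Set.range x)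
  have hcz : CharZero K := charZero_of_injective_algebraMap (algebraMap k K).injective
  have halgK : Algebra.IsAlgebraic K L := by
    have := hx.isAlgebraic_field
    exact this
  have hsep : Algebra.IsSeparable K L := inferInstance
  have h1 : Algebra.FormallyEtale S K := Algebra.FormallyEtale.of_isLocalization (nonZeroDivisors _)
  have h2 : Algebra.FormallyEtale K L := Algebra.FormallyEtale.of_isSeparable _ L
  have h3 : Algebra.FormallyEtale S L := Algebra.FormallyEtale.comp S K L
  let e : MvPolynomial ι k ≃ₐ[k] S := hx.1.aevalEquiv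
  -- the derivation on `S`
  let _ : Module (MvPolynomial ι k) L := Module.compHom L (aeval x : MvPolynomial ι k →ₐ[k] L).toRingHom
  have _ : IsScalarTower k (MvPolynomial ι k) L := ⟨fun a p l => by
    change (aeval x) (a • p) * l = a • ((aeval x) p * l)
    rw [map_smul, smul_mul_assoc]⟩
  let d0 : Derivation k (MvPolynomial ι k) L := mkDerivation k v
  have he : ∀ p : MvPolynomial ι k, ((e p : S) : L) = aeval x p := fun p =>
    hx.1.algebraMap_aevalEquiv p
  let d : Derivation k S L := Derivation.mk'
    (d0.toLinearMap.comp e.symm.toLinearMap) (by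
      intro a b
      obtain ⟨p, rfl⟩ := e.surjective a
      obtain ⟨q, rfl⟩ := e.surjective b
      have h := d0.leibniz p q
      change d0 (e.symm (e p * e q)) = (e p) • d0 (e.symm (e q)) + (e q) • d0 (e.symm (e p))
      rw [← map_mul, e.symm_apply_apply, e.symm_apply_apply, e.symm_apply_apply, h]
      change aeval x p * d0 q + aeval x q * d0 p = ((e p : S) : L) * d0 q + ((e q : S) : L) * d0 p
      rw [he, he])
  let E := KaehlerDifferential.tensorKaehlerEquivOfFormallyEtale k S L
  let φ : L ⊗[S] (Ω[S⁄k]) →ₗ[L] L := LinearMap.liftBaseChange L d.liftKaehlerDifferential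
  let δ : Derivation k L L := (φ.comp E.symm.toLinearMap).compDer (KaehlerDifferential.D k L)
  refine ⟨δ, fun i => ?_⟩
  have hxi : x i ∈ S := Algebra.subset_adjoin ⟨i, rfl⟩
  have hx2 : x i = algebraMap S L ⟨x i, hxi⟩ := rfl
  have hx3 : (⟨x i, hxi⟩ : S) = e (X i) := by
    apply Subtype.ext
    rw [he, aeval_X]
  change φ (E.symm (KaehlerDifferential.D k L (x i))) = v i
  rw [hx2, KaehlerDifferential.tensorKaehlerEquivOfFormallyEtale_symm_D_algebraMap]
  simp only [φ, LinearMap.liftBaseChange_tmul, Derivation.liftKaehlerDifferential_comp_D, one_smul]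
  rw [hx3]
  change d0 (e.symm (e (X i))) = v i
  rw [e.symm_apply_apply]
  exact mkDerivation_X _ _ _

theorem exists_derivation' {k L : Type*} [Field k] [CharZero k] [Field L] [Algebra k L]
    {ι : Type*} {x : ι → L} (hx : AlgebraicIndependent k x) (v : ι → L) :
    ∃ δ : Derivation k L L, ∀ i, δ (x i) = v i := by
  classical
  obtain ⟨t, ht, hb⟩ := exists_isTranscendenceBasis_superset (s := Set.range x) hx.to_subtype_range
  have hinj : Function.Injective x := hx.injective
  obtain ⟨δ, hδ⟩ := exists_derivation hb
    (fun a : t => if h : ∃ i, x i = a.1 then v h.choose else 0)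
  refine ⟨δ, fun i => ?_⟩
  have hm : x i ∈ t := ht ⟨i, rfl⟩
  have h := hδ ⟨x i, hm⟩
  have he : ∃ j, x j = x i := ⟨i, rfl⟩
  rw [dif_pos he] at h
  rw [h]
  congr 1
  exact hinj he.choose_spec

/-- A derivation of the fraction field of a polynomial ring on polynomials. -/
theorem derivation_apply_eq {k L : Type*} [Field k] [Field L] [Algebra k L] {m : ℕ}
    [Algebra (MvPolynomial (Fin m) k) L] [IsScalarTower k (MvPolynomial (Fin m) k) L]
    (δ : Derivation k L L) (P : MvPolynomial (Fin m) k) :
    δ (algebraMap (MvPolynomial (Fin m) k) L P) =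
      ∑ j, δ (algebraMap (MvPolynomial (Fin m) k) L (X j)) *
        algebraMap (MvPolynomial (Fin m) k) L (pderiv j P) := by
  induction P using MvPolynomial.induction_on with
  | C a =>
    have h1 : algebraMap (MvPolynomial (Fin m) k) L (C a) = algebraMap k L a := by
      rw [IsScalarTower.algebraMap_apply k (MvPolynomial (Fin m) k) L]; rfl
    rw [h1, Derivation.map_algebraMap]
    symm
    apply Finset.sum_eq_zero
    intro j _
    rw [pderiv_C, map_zero, mul_zero]
  | add p q hp hq =>
    rw [map_add, map_add, hp, hq, ← Finset.sum_add_distrib]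
    apply Finset.sum_congr rfl
    intro j _
    rw [map_add, map_add, mul_add]
  | mul_X p i hp =>
    rw [map_mul, Derivation.leibniz, hp, smul_eq_mul, smul_eq_mul, Finset.mul_sum]
    have : ∀ j, δ (algebraMap (MvPolynomial (Fin m) k) L (X j)) *
        algebraMap (MvPolynomial (Fin m) k) L (pderiv j (p * X i)) =
        algebraMap (MvPolynomial (Fin m) k) L (X i) *
          (δ (algebraMap (MvPolynomial (Fin m) k) L (X j)) *
            algebraMap (MvPolynomial (Fin m) k) L (pderiv j p)) +
        (if j = i then algebraMap (MvPolynomial (Fin m) k) L p *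
          δ (algebraMap (MvPolynomial (Fin m) k) L (X i)) else 0) := by
      intro j
      rw [pderiv_mul, pderiv_X, map_add, map_mul, map_mul]
      by_cases h : j = i
      · subst h
        rw [Pi.single_eq_same, if_pos rfl, map_one]
        ring
      · rw [Pi.single_eq_of_ne (by exact fun h' => h h'.symm), if_neg h, map_zero]
        ring
    rw [Finset.sum_congr rfl (fun j _ => this j), Finset.sum_add_distrib, Finset.sum_ite_eq' Finset.univ i,
      if_pos (Finset.mem_univ i)]
    ring

end Pool.Agent.Helper98.KA
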