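import Mathlib
import Pool.Agent.Helper98.KA.Ext

namespace Pool.Agent.Helper98.KA

open MvPolynomial

/-- The row operators: the identity (for `none`) or a partial derivative. -/
noncomputable def rowOp {k : Type*} [Field k] {m : ℕ} (o : Option (Fin m))
    (P : MvPolynomial (Fin m) k) : MvPolynomial (Fin m) k :=
  match o with
  | none => P
  | some j => pderiv j P

/-- If the ratios `F_a / F_0` are algebraically independent over `k`, then some maximal minor
of the matrix of the `F_a` and of their partial derivatives does not vanish. -/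
theorem exists_minor {k L : Type*} [Field k] [CharZero k] [Field L] [Algebra k L] {m n : ℕ}
    [Algebra (MvPolynomial (Fin m) k) L] [IsScalarTower k (MvPolynomial (Fin m) k) L]
    (hinj : Function.Injective (algebraMap (MvPolynomial (Fin m) k) L))
    (F : Fin (n + 1) → MvPolynomial (Fin m) k) (hF0 : F 0 ≠ 0)
    (x : Fin n → L) (hx : AlgebraicIndependent k x)
    (hxF : ∀ i, algebraMap (MvPolynomial (Fin m) k) L (F i.succ) =
      x i * algebraMap (MvPolynomial (Fin m) k) L (F 0)) :
    ∃ ρ : Fin (n + 1) → Option (Fin m),
      (Matrix.of fun i a => rowOp (ρ i) (F a) :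
        Matrix (Fin (n + 1)) (Fin (n + 1)) (MvPolynomial (Fin m) k)).det ≠ 0 := by
  classical
  set φ := algebraMap (MvPolynomial (Fin m) k) L with hφ
  have hφ0 : φ (F 0) ≠ 0 := by
    rw [Ne, map_eq_zero_iff φ hinj]
    exact hF0
  let r : Option (Fin m) → Fin (n + 1) → L := fun o a => φ (rowOp o (F a))
  have hspan : Submodule.span L (Set.range r) = ⊤ := by
    by_contra hne
    obtain ⟨v, hv⟩ : ∃ v, v ∉ Submodule.span L (Set.range r) := by
      by_contra hall
      push Not at hall
      exact hne (eq_top_iff.mpr fun v _ => hall v)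
    obtain ⟨f, hf0, hf⟩ := Submodule.exists_le_ker_of_notMem hv
    let lam : Fin (n + 1) → L := fun a => f (Pi.single a 1)
    have hfe : ∀ u : Fin (n + 1) → L, f u = ∑ a, u a * lam a := by
      intro u
      conv_lhs => rw [pi_eq_sum_univ u]
      rw [map_sum]
      apply Finset.sum_congr rfl
      intro a _
      rw [map_smul, smul_eq_mul]
      congr 2
      ext b
      by_cases h : a = b
      · subst h; simp
      · rw [if_neg h, Pi.single_eq_of_ne (fun h' => h h'.symm)]
    have hr : ∀ o, ∑ a, r o a * lam a = 0 := by
      intro o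
      rw [← hfe]
      exact hf (Submodule.subset_span ⟨o, rfl⟩)
    have hδ : ∀ δ : Derivation k L L, ∑ a, δ (φ (F a)) * lam a = 0 := by
      intro δ
      have h1 : ∀ a, δ (φ (F a)) * lam a =
          ∑ j, δ (φ (X j)) * (r (some j) a * lam a) := by
        intro a
        rw [derivation_apply_eq δ (F a), Finset.sum_mul]
        apply Finset.sum_congr rfl
        intro j _
        change _ = δ (φ (X j)) * (φ (pderiv j (F a)) * lam a)
        ring
      rw [Finset.sum_congr rfl (fun a _ => h1 a), Finset.sum_comm]
      apply Finset.sum_eq_zero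
      intro j _
      rw [← Finset.mul_sum, hr (some j), mul_zero]
    have hlam : ∀ b : Fin n, lam b.succ = 0 := by
      intro b
      obtain ⟨δ, hδb⟩ := exists_derivation' hx (fun a => if a = b then (1 : L) else 0)
      have h0 := hr none
      have h1 := hδ δ
      rw [Fin.sum_univ_succ] at h0 h1
      have h2 : ∀ i : Fin n, δ (φ (F i.succ)) * lam i.succ =
          (δ (φ (F 0)) / φ (F 0)) * (r none i.succ * lam i.succ) +
            (if i = b then φ (F 0) * lam b.succ else 0) := by
        intro i
        rw [hxF i, Derivation.leibniz, hδb i, smul_eq_mul, smul_eq_mul]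
        change _ = (δ (φ (F 0)) / φ (F 0)) * (φ (F i.succ) * lam i.succ) + _
        rw [hxF i]
        by_cases hib : i = b
        · subst hib
          rw [if_pos rfl, if_pos rfl]
          field_simp
        · rw [if_neg hib, if_neg hib]
          field_simp
          ring
      rw [Finset.sum_congr rfl (fun i _ => h2 i), Finset.sum_add_distrib, ← Finset.mul_sum,
        Finset.sum_ite_eq' Finset.univ b, if_pos (Finset.mem_univ b)] at h1
      have h3 : δ (φ (F 0)) * lam 0 =
          (δ (φ (F 0)) / φ (F 0)) * (r none 0 * lam 0) := by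
        change _ = (δ (φ (F 0)) / φ (F 0)) * (φ (F 0) * lam 0)
        field_simp
      rw [h3, ← add_assoc, ← mul_add, h0, mul_zero, zero_add] at h1
      exact (mul_eq_zero.mp h1).resolve_left hφ0
    have hlam0 : lam 0 = 0 := by
      have h0 := hr none
      rw [Fin.sum_univ_succ] at h0
      simp only [hlam, mul_zero, Finset.sum_const_zero, add_zero] at h0
      exact (mul_eq_zero.mp h0).resolve_left hφ0
    apply hf0
    rw [hfe]
    apply Finset.sum_eq_zero
    intro a _
    rcases Fin.eq_zero_or_eq_succ a with h | ⟨j, h⟩
    · rw [h, hlam0, mul_zero]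
    · rw [h, hlam, mul_zero]
  obtain ⟨g, hg1, hg2, hg3⟩ := Submodule.exists_fun_fin_finrank_span_eq L (Set.range r)
  have hfr : Module.finrank L (Submodule.span L (Set.range r)) = n + 1 := by
    rw [hspan, finrank_top, Module.finrank_fin_fun]
  choose ρ' hρ' using hg1
  let ρ : Fin (n + 1) → Option (Fin m) := fun i => ρ' (Fin.cast hfr.symm i)
  refine ⟨ρ, ?_⟩
  intro hdet
  have hli : LinearIndependent L (fun i : Fin (n + 1) => r (ρ i)) := by
    have h := hg3.comp (Fin.cast hfr.symm) (Fin.cast_injective _)
    have he : (g ∘ Fin.cast hfr.symm) = (fun i : Fin (n + 1) => r (ρ i)) := by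
      funext i
      exact (hρ' _).symm
    rw [he] at h
    exact h
  have hdet2 : (Matrix.of fun i a => r (ρ i) a : Matrix (Fin (n + 1)) (Fin (n + 1)) L).det = 0 := by
    have h := congrArg φ hdet
    rw [map_zero, RingHom.map_det] at h
    rw [← h]
    congr 1
  have hunit : IsUnit (Matrix.of fun i a => r (ρ i) a : Matrix (Fin (n + 1)) (Fin (n + 1)) L) := by
    rw [← Matrix.linearIndependent_rows_iff_isUnit]
    exact hli
  rw [Matrix.isUnit_iff_isUnit_det, hdet2] at hunit
  exact not_isUnit_zero hunit

end Pool.Agent.Helper98.KA
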