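import Mathlib
import Pool.Agent.Helper98.KA.Minor

namespace Pool.Agent.Helper98.KA

open MvPolynomial

theorem pow_dvd_det {R : Type*} [CommRing R] [IsDomain R] {n : ℕ} (p : R) (hp : p ≠ 0)
    (E : Matrix (Fin (n + 1)) (Fin (n + 1)) R) (d u : Fin (n + 1) → R) :
    p ^ n ∣ (Matrix.of fun i a => p * E i a + d i * u a :
      Matrix (Fin (n + 1)) (Fin (n + 1)) R).det := by
  classical
  let B : Matrix Unit (Fin (n + 1)) R := Matrix.of fun _ a => - u a
  let C : Matrix (Fin (n + 1)) Unit R := Matrix.of fun i _ => d i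
  have h1 : (Matrix.fromBlocks (1 : Matrix Unit Unit R) B C (p • E)).det =
      (Matrix.of fun i a => p * E i a + d i * u a :
        Matrix (Fin (n + 1)) (Fin (n + 1)) R).det := by
    rw [Matrix.det_fromBlocks_one₁₁]
    congr 1
    ext i a
    simp [B, C, Matrix.mul_apply]
  have h2 : Matrix.fromBlocks (p • (1 : Matrix Unit Unit R)) 0 0
        (1 : Matrix (Fin (n + 1)) (Fin (n + 1)) R) * Matrix.fromBlocks 1 B C (p • E) =
      Matrix.fromBlocks (p • (1 : Matrix Unit Unit R)) B C E *
        Matrix.fromBlocks (1 : Matrix Unit Unit R) 0 0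
          (p • (1 : Matrix (Fin (n + 1)) (Fin (n + 1)) R)) := by
    rw [Matrix.fromBlocks_multiply, Matrix.fromBlocks_multiply]
    congr 1 <;> simp
  have h3 := congrArg Matrix.det h2
  rw [Matrix.det_mul, Matrix.det_mul, Matrix.det_fromBlocks_zero₂₁, Matrix.det_fromBlocks_zero₂₁,
    Matrix.det_one, Matrix.det_one, Matrix.det_smul, Matrix.det_smul, Matrix.det_one,
    Matrix.det_one, h1] at h3
  simp only [Fintype.card_unit, pow_one, mul_one, Fintype.card_fin, one_mul] at h3
  refine ⟨(Matrix.fromBlocks (p • (1 : Matrix Unit Unit R)) B C E).det, ?_⟩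
  apply mul_left_cancel₀ hp
  rw [h3]
  ring

theorem pow_dvd_minor {k : Type*} [Field k] {m n : ℕ} (p : MvPolynomial (Fin m) k) (hp : p ≠ 0)
    (ρ : Fin (n + 1) → Option (Fin m)) (w : Fin (n + 1) → MvPolynomial (Fin m) k)
    (τ : Fin (n + 1) → ℕ) (S : ℕ) (hS : ∑ a, τ a = S + 1) :
    p ^ S ∣ (Matrix.of fun i a => rowOp (ρ i) (p ^ τ a * w a) :
      Matrix (Fin (n + 1)) (Fin (n + 1)) (MvPolynomial (Fin m) k)).det := by
  classical
  let d : Fin (n + 1) → MvPolynomial (Fin m) k := fun i =>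
    match ρ i with
    | none => 0
    | some j => pderiv j p
  have key : ∀ i a, p * rowOp (ρ i) (p ^ τ a * w a) =
      p ^ τ a * (p * rowOp (ρ i) (w a) + d i * ((τ a : MvPolynomial (Fin m) k) * w a)) := by
    intro i a
    simp only [d]
    cases h : ρ i with
    | none => simp only [rowOp]; ring
    | some j =>
      simp only [rowOp]
      rw [pderiv_mul, pderiv_pow]
      cases hτ : τ a with
      | zero => simp
      | succ t =>
        rw [Nat.add_sub_cancel]
        push_cast
        ring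
  obtain ⟨c, hc⟩ := pow_dvd_det p hp (Matrix.of fun i a => rowOp (ρ i) (w a)) d
    (fun a => (τ a : MvPolynomial (Fin m) k) * w a)
  have h1 : (Matrix.of fun i a => p * rowOp (ρ i) (p ^ τ a * w a) :
      Matrix (Fin (n + 1)) (Fin (n + 1)) (MvPolynomial (Fin m) k)).det =
      p ^ (n + 1) * (Matrix.of fun i a => rowOp (ρ i) (p ^ τ a * w a) :
      Matrix (Fin (n + 1)) (Fin (n + 1)) (MvPolynomial (Fin m) k)).det := by
    have := Matrix.det_smul (Matrix.of fun i a => rowOp (ρ i) (p ^ τ a * w a) :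
      Matrix (Fin (n + 1)) (Fin (n + 1)) (MvPolynomial (Fin m) k)) p
    rw [Fintype.card_fin] at this
    rw [← this]
    congr 1
  have h2 : (Matrix.of fun i a => p * rowOp (ρ i) (p ^ τ a * w a) :
      Matrix (Fin (n + 1)) (Fin (n + 1)) (MvPolynomial (Fin m) k)).det =
      (∏ a, p ^ τ a) * (Matrix.of fun i a => p * rowOp (ρ i) (w a) +
        d i * ((τ a : MvPolynomial (Fin m) k) * w a) :
      Matrix (Fin (n + 1)) (Fin (n + 1)) (MvPolynomial (Fin m) k)).det := by
    rw [← Matrix.det_mul_row]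
    congr 1
    ext1 i a
    simp only [Matrix.of_apply]
    exact key i a
  have h3 : (Matrix.of fun i a => p * rowOp (ρ i) (w a) +
        d i * ((τ a : MvPolynomial (Fin m) k) * w a) :
      Matrix (Fin (n + 1)) (Fin (n + 1)) (MvPolynomial (Fin m) k)).det = p ^ n * c := by
    rw [← hc]
    congr 1
  rw [h1, h3, Finset.prod_pow_eq_pow_sum, hS] at h2
  refine ⟨c, ?_⟩
  apply mul_left_cancel₀ (pow_ne_zero (n + 1) hp)
  rw [h2]
  ring

end Pool.Agent.Helper98.KA
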