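import Mathlib
import Pool.Agent.Helper98.KA.PAdic
import Pool.Agent.Helper98.KA.Orth

namespace Pool.Agent.Helper98.KA

set_option linter.unusedSectionVars false

open MvPolynomial

section rep

variable {k L : Type*} [Field k] [Field L] [Algebra k L] {m n : ℕ}
    [Algebra (MvPolynomial (Fin m) k) L] [IsScalarTower k (MvPolynomial (Fin m) k) L]
    [IsFractionRing (MvPolynomial (Fin m) k) L]

/-- Coprime homogeneous coordinates of a point with coordinates in the fraction field. -/
theorem exists_coprime_rep (x : Fin n → L) :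
    ∃ F : Fin (n + 1) → MvPolynomial (Fin m) k, F 0 ≠ 0 ∧
      (∀ i : Fin n, algebraMap (MvPolynomial (Fin m) k) L (F i.succ) =
        x i * algebraMap (MvPolynomial (Fin m) k) L (F 0)) ∧
      ∀ p, Prime p → ∃ a, ¬ p ∣ F a := by
  classical
  have hinj : Function.Injective (algebraMap (MvPolynomial (Fin m) k) L) :=
    IsFractionRing.injective _ _
  -- some representation
  have hex : ∃ D : ℕ, ∃ F : Fin (n + 1) → MvPolynomial (Fin m) k, F 0 ≠ 0 ∧
      (∀ i : Fin n, algebraMap (MvPolynomial (Fin m) k) L (F i.succ) =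
        x i * algebraMap (MvPolynomial (Fin m) k) L (F 0)) ∧ (F 0).totalDegree = D := by
    obtain ⟨b, hb⟩ := IsLocalization.exist_integer_multiples
      (nonZeroDivisors (MvPolynomial (Fin m) k)) (Finset.univ : Finset (Fin n)) x
    choose G hG using fun i => hb i (Finset.mem_univ i)
    refine ⟨_, Fin.cons b.1 G, ?_, ?_, rfl⟩
    · rw [Fin.cons_zero]
      exact nonZeroDivisors.ne_zero b.2
    · intro i
      rw [Fin.cons_succ, Fin.cons_zero, hG i, Algebra.smul_def, mul_comm]
  obtain ⟨F, hF0, hF, hFD⟩ := Nat.find_spec hex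
  refine ⟨F, hF0, hF, ?_⟩
  intro p hp
  by_contra hcon
  push Not at hcon
  choose H hH using hcon
  have hH0 : H 0 ≠ 0 := by
    intro h
    apply hF0
    rw [hH 0, h, mul_zero]
  have hpL : algebraMap (MvPolynomial (Fin m) k) L p ≠ 0 := by
    rw [Ne, map_eq_zero_iff _ hinj]
    exact hp.ne_zero
  have hHx : ∀ i : Fin n, algebraMap (MvPolynomial (Fin m) k) L (H i.succ) =
        x i * algebraMap (MvPolynomial (Fin m) k) L (H 0) := by
    intro i
    have h := hF i
    rw [hH i.succ, hH 0, map_mul, map_mul] at h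
    apply mul_left_cancel₀ hpL
    rw [h]
    ring
  have hdeg : (H 0).totalDegree < (F 0).totalDegree := by
    rw [hH 0, totalDegree_mul_of_isDomain hp.ne_zero hH0]
    have : 0 < p.totalDegree := by
      rw [Nat.pos_iff_ne_zero]
      intro h0
      rw [totalDegree_eq_zero_iff_eq_C] at h0
      apply hp.not_isUnit
      rw [h0]
      apply IsUnit.map
      rw [isUnit_iff_ne_zero]
      intro hc
      rw [hc, C_0] at h0
      exact hp.ne_zero h0
    omega
  have := Nat.find_min' hex ⟨H, hH0, hHx, rfl⟩
  omega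

end rep

theorem totalDegree_pderiv_lt {k : Type*} [Field k] {m : ℕ} (j : Fin m)
    (P : MvPolynomial (Fin m) k) (h : pderiv j P ≠ 0) :
    (pderiv j P).totalDegree + 1 ≤ P.totalDegree := by
  classical
  have hne : (pderiv j P).support.Nonempty := by
    rw [Finset.nonempty_iff_ne_empty, Ne, MvPolynomial.support_eq_empty]
    exact h
  obtain ⟨s, hs, hsd⟩ : ∃ s ∈ (pderiv j P).support, (pderiv j P).totalDegree =
      s.sum (fun _ e => e) := by
    rw [MvPolynomial.totalDegree]
    exact Finset.exists_mem_eq_sup _ hne _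
  have hs2 : s + Finsupp.single j 1 ∈ P.support := by
    rw [mem_support_iff] at hs ⊢
    rw [coeff_pderiv] at hs
    intro h0
    apply hs
    rw [h0]
    simp
  have h2 := le_totalDegree hs2
  rw [Finsupp.sum_add_index' (fun _ => rfl) (fun _ _ _ => rfl), Finsupp.sum_single_index rfl] at h2
  rw [hsd]
  exact h2

theorem totalDegree_rowOp_le {k : Type*} [Field k] {m : ℕ} (o : Option (Fin m))
    (P : MvPolynomial (Fin m) k) (h : rowOp o P ≠ 0) :
    (rowOp o P).totalDegree + (if o = none then 0 else 1) ≤ P.totalDegree := by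
  cases o with
  | none => simp [rowOp]
  | some j =>
    simp only [reduceCtorEq, if_false]
    exact totalDegree_pderiv_lt j P h

theorem totalDegree_det_lt {k : Type*} [Field k] {m n : ℕ} (hn : 1 ≤ n)
    (ρ : Fin (n + 1) → Option (Fin m)) (H : Fin (n + 1) → MvPolynomial (Fin m) k)
    (hdet : (Matrix.of fun i a => rowOp (ρ i) (H a) :
      Matrix (Fin (n + 1)) (Fin (n + 1)) (MvPolynomial (Fin m) k)).det ≠ 0) :
    (Matrix.of fun i a => rowOp (ρ i) (H a) :
      Matrix (Fin (n + 1)) (Fin (n + 1)) (MvPolynomial (Fin m) k)).det.totalDegree + 1 ≤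
      ∑ a, (H a).totalDegree := by
  classical
  have hex : ∃ i, ρ i ≠ none := by
    by_contra hall
    push Not at hall
    apply hdet
    have h01 : (0 : Fin (n + 1)) ≠ Fin.last n := by
      intro h
      have := congrArg Fin.val h
      simp at this
      omega
    apply Matrix.det_zero_of_row_eq h01
    funext a
    simp [hall]
  obtain ⟨i0, hi0⟩ := hex
  have hle : ∀ σ : Equiv.Perm (Fin (n + 1)),
      (((Equiv.Perm.sign σ : ℤˣ) : ℤ) • ∏ i, (Matrix.of fun i a => rowOp (ρ i) (H a) :
        Matrix (Fin (n + 1)) (Fin (n + 1)) (MvPolynomial (Fin m) k)) (σ i) i).totalDegree ≤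
        (∑ a, (H a).totalDegree) - 1 := by
    intro σ
    refine (totalDegree_smul_le _ _).trans ?_
    by_cases h0 : ∏ i, (Matrix.of fun i a => rowOp (ρ i) (H a) :
        Matrix (Fin (n + 1)) (Fin (n + 1)) (MvPolynomial (Fin m) k)) (σ i) i = 0
    · rw [h0, totalDegree_zero]
      exact Nat.zero_le _
    · rw [← ne_eq, Finset.prod_ne_zero_iff] at h0
      have h1 : ∀ i, (rowOp (ρ (σ i)) (H i)).totalDegree + (if ρ (σ i) = none then 0 else 1) ≤
          (H i).totalDegree := fun i =>
        totalDegree_rowOp_le _ _ (h0 i (Finset.mem_univ i))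
      have h2 : ∑ i, ((rowOp (ρ (σ i)) (H i)).totalDegree +
          (if ρ (σ i) = none then 0 else 1)) ≤ ∑ i, (H i).totalDegree :=
        Finset.sum_le_sum fun i _ => h1 i
      rw [Finset.sum_add_distrib] at h2
      have h3 : 1 ≤ ∑ i, (if ρ (σ i) = none then 0 else 1) := by
        have : (if ρ (σ (σ.symm i0)) = none then 0 else 1) ≤
            ∑ i, (if ρ (σ i) = none then 0 else 1) :=
          Finset.single_le_sum (f := fun i => if ρ (σ i) = none then 0 else 1)
            (fun _ _ => Nat.zero_le _) (Finset.mem_univ _)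
        rw [Equiv.apply_symm_apply, if_neg hi0] at this
        exact this
      have h4 := totalDegree_finsetProd (Finset.univ : Finset (Fin (n + 1)))
        (fun i => rowOp (ρ (σ i)) (H i))
      have h5 : (∏ i, (Matrix.of fun i a => rowOp (ρ i) (H a) :
        Matrix (Fin (n + 1)) (Fin (n + 1)) (MvPolynomial (Fin m) k)) (σ i) i).totalDegree ≤
          ∑ i, (rowOp (ρ (σ i)) (H i)).totalDegree := h4
      omega
  have hpos : 1 ≤ ∑ a, (H a).totalDegree := by
    -- some term of the determinant is nonzero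
    obtain ⟨σ, hσ⟩ : ∃ σ : Equiv.Perm (Fin (n + 1)),
        ∏ i, (Matrix.of fun i a => rowOp (ρ i) (H a) :
        Matrix (Fin (n + 1)) (Fin (n + 1)) (MvPolynomial (Fin m) k)) (σ i) i ≠ 0 := by
      by_contra hall
      push Not at hall
      apply hdet
      rw [Matrix.det_apply]
      apply Finset.sum_eq_zero
      intro σ _
      rw [hall σ, smul_zero]
    rw [Finset.prod_ne_zero_iff] at hσ
    have h1 := totalDegree_rowOp_le (ρ (σ (σ.symm i0))) (H (σ.symm i0))
      (hσ (σ.symm i0) (Finset.mem_univ _))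
    rw [Equiv.apply_symm_apply, if_neg hi0] at h1
    have h2 : (H (σ.symm i0)).totalDegree ≤ ∑ a, (H a).totalDegree :=
      Finset.single_le_sum (f := fun a => (H a).totalDegree)
        (fun _ _ => Nat.zero_le _) (Finset.mem_univ _)
    omega
  have hfin : (Matrix.of fun i a => rowOp (ρ i) (H a) :
      Matrix (Fin (n + 1)) (Fin (n + 1)) (MvPolynomial (Fin m) k)).det.totalDegree ≤
      (∑ a, (H a).totalDegree) - 1 := by
    rw [Matrix.det_apply]
    refine (totalDegree_finsetSum _ _).trans ?_
    apply Finset.sup_le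
    intro σ _
    exact hle σ
  omega

end Pool.Agent.Helper98.KA
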