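import Mathlib
import Pool.Agent.Helper98.KA.NSide1
import Pool.Agent.Helper98.KA.Defs

namespace Pool.Agent.Helper98.KA

open MvPolynomial Module

section

variable {k : Type*} [Field k] {m n : ℕ}

/-- The value of a linear form at the point with homogeneous coordinates `F`. -/
noncomputable def lin (F : Fin (n + 1) → MvPolynomial (Fin m) k) :
    (Fin (n + 1) → k) →ₗ[k] MvPolynomial (Fin m) k :=
  Fintype.linearCombination k F

theorem lin_apply (F : Fin (n + 1) → MvPolynomial (Fin m) k) (c : Fin (n + 1) → k) :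
    lin F c = ∑ a, c a • F a := rfl

theorem rowOp_lin (o : Option (Fin m)) (F : Fin (n + 1) → MvPolynomial (Fin m) k)
    (c : Fin (n + 1) → k) : rowOp o (lin F c) = ∑ a, c a • rowOp o (F a) := by
  rw [lin_apply]
  cases o with
  | none => rfl
  | some j =>
    simp only [rowOp, map_sum, Derivation.map_smul]

theorem lin_single (F : Fin (n + 1) → MvPolynomial (Fin m) k) (a : Fin (n + 1)) :
    lin F (Pi.single a 1) = F a := by
  classical
  rw [lin_apply, Finset.sum_eq_single a]
  · rw [Pi.single_eq_same, one_smul]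
  · intro b _ hb
    rw [Pi.single_eq_of_ne hb, zero_smul]
  · intro h; exact absurd (Finset.mem_univ _) h

/-- Changing the basis multiplies the minor by a nonzero constant. -/
theorem det_basis (ρ : Fin (n + 1) → Option (Fin m))
    (F : Fin (n + 1) → MvPolynomial (Fin m) k) (b : Basis (Fin (n + 1)) k (Fin (n + 1) → k)) :
    ∃ u : k, u ≠ 0 ∧ (Matrix.of fun i a => rowOp (ρ i) (lin F (b a)) :
      Matrix (Fin (n + 1)) (Fin (n + 1)) (MvPolynomial (Fin m) k)).det =
      C u * (Matrix.of fun i a => rowOp (ρ i) (F a) :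
      Matrix (Fin (n + 1)) (Fin (n + 1)) (MvPolynomial (Fin m) k)).det := by
  classical
  let B : Matrix (Fin (n + 1)) (Fin (n + 1)) k := Matrix.of fun a' a => b a a'
  refine ⟨B.det, ?_, ?_⟩
  · have hB : IsUnit B := by
      rw [← Matrix.linearIndependent_cols_iff_isUnit]
      exact b.linearIndependent
    rw [Matrix.isUnit_iff_isUnit_det] at hB
    exact hB.ne_zero
  · have h1 : (Matrix.of fun i a => rowOp (ρ i) (lin F (b a)) :
      Matrix (Fin (n + 1)) (Fin (n + 1)) (MvPolynomial (Fin m) k)) =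
      (Matrix.of fun i a => rowOp (ρ i) (F a)) * B.map (C : k →+* MvPolynomial (Fin m) k) := by
      ext1 i a
      rw [Matrix.mul_apply]
      simp only [Matrix.of_apply, Matrix.map_apply, B]
      rw [rowOp_lin]
      apply Finset.sum_congr rfl
      intro a' _
      rw [smul_eq_C_mul, mul_comm]
    rw [h1, Matrix.det_mul, mul_comm]
    congr 1
    have := RingHom.map_det (C : k →+* MvPolynomial (Fin m) k) B
    rw [this]
    rfl

end

theorem klt_ne_zero {k : Type*} [Field k] {n r : ℕ} {d q : Fin r → ℕ} (hd : ∀ j, 2 ≤ d j)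
    {c : Hyp d q → Fin (n + 1) → k} (hklt : IsKlt d q c) (e : Hyp d q) : c e ≠ 0 := by
  classical
  intro h0
  have h := hklt {e} (Finset.singleton_nonempty e)
  rw [Finset.coe_singleton, Set.image_singleton, h0, Submodule.span_zero_singleton, finrank_bot,
    Finset.sum_singleton] at h
  have h2 := h (Nat.zero_le _)
  have h3 : (2 : ℚ) ≤ d e.1 := by exact_mod_cast hd e.1
  have h4 : 1 / (d e.1 : ℚ) ≤ 1 / 2 := one_div_le_one_div_of_le (by norm_num) h3
  push_cast at h2
  linarith

theorem nside {k : Type*} [Field k] {m n r : ℕ} (hn : 1 ≤ n)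
    (d q : Fin r → ℕ) (hd : ∀ j, 2 ≤ d j) (c : Hyp d q → Fin (n + 1) → k)
    (hklt : IsKlt d q c) (hw : (n : ℚ) + 1 ≤ ∑ e : Hyp d q, (1 - 1 / (d e.1 : ℚ)))
    (F : Fin (n + 1) → MvPolynomial (Fin m) k)
    (hcop : ∀ p, Prime p → ∃ a, ¬ p ∣ F a)
    (hinj : ∀ v, lin F v = 0 → v = 0)
    (ρ : Fin (n + 1) → Option (Fin m))
    (hdet : (Matrix.of fun i a => rowOp (ρ i) (F a) :
        Matrix (Fin (n + 1)) (Fin (n + 1)) (MvPolynomial (Fin m) k)).det ≠ 0)
    (G : Fin r → MvPolynomial (Fin m) k)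
    (hG : ∀ j, G j ^ d j = ∏ ab, lin F (c ⟨j, ab⟩)) : False := by
  classical
  set Dt := (Matrix.of fun i a => rowOp (ρ i) (F a) :
        Matrix (Fin (n + 1)) (Fin (n + 1)) (MvPolynomial (Fin m) k)).det with hDt
  have hc0 : ∀ e, c e ≠ 0 := klt_ne_zero hd hklt
  have hlc : ∀ e, lin F (c e) ≠ 0 := fun e h => hc0 e (hinj _ h)
  have hG0 : ∀ j, G j ≠ 0 := by
    intro j h0
    have h := hG j
    rw [h0, zero_pow (by have := hd j; omega)] at h
    have h2 := Finset.prod_eq_zero_iff.mp h.symm
    obtain ⟨ab, _, hab⟩ := h2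
    exact hlc _ hab
  have hwt : ∀ e : Hyp d q, 0 < (1 - 1 / (d e.1 : ℚ)) := by
    intro e
    have h3 : (2 : ℚ) ≤ d e.1 := by exact_mod_cast hd e.1
    have h4 : 1 / (d e.1 : ℚ) ≤ 1 / 2 := one_div_le_one_div_of_le (by norm_num) h3
    linarith
  have hfr : finrank k (Fin (n + 1) → k) = n + 1 := finrank_fin_fun k
  -- weighted sums
  have hsum : ∀ (T : Hyp d q → ℕ) (g : Fin r → ℕ), (∀ j, d j * g j = ∑ ab, T ⟨j, ab⟩) →
      ∑ e : Hyp d q, (1 - 1 / (d e.1 : ℚ)) * (T e : ℚ) =
        ((∑ j, (d j - 1) * g j : ℕ) : ℚ) := by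
    intro T g hTg
    rw [Fintype.sum_sigma]
    push_cast
    apply Finset.sum_congr rfl
    intro j _
    rw [← Finset.mul_sum]
    have h1 : (∑ ab, (T ⟨j, ab⟩ : ℚ)) = (d j : ℚ) * g j := by
      have := hTg j
      exact_mod_cast this.symm
    rw [h1]
    have h2 : (d j : ℚ) ≠ 0 := by
      have := hd j
      have : d j ≠ 0 := by omega
      exact_mod_cast this
    have h3 : ((d j - 1 : ℕ) : ℚ) = (d j : ℚ) - 1 := by
      have := hd j
      rw [Nat.cast_sub (by omega)]
      simp
    rw [h3]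
    field_simp
  set P := ∏ j, G j ^ (d j - 1) with hP
  have hP0 : P ≠ 0 := Finset.prod_ne_zero_iff.mpr fun j _ => pow_ne_zero _ (hG0 j)
  -- divisibility
  have hdvd : P ∣ Dt := by
    rw [UniqueFactorizationMonoid.dvd_iff_emultiplicity_le hP0]
    intro p hp
    let f : (Fin (n + 1) → k) → ℕ∞ := fun v => emultiplicity p (lin F v)
    have hf0 : f 0 = ⊤ := by
      simp only [f, map_zero]
      exact emultiplicity_zero p
    have hfin : ∀ a : MvPolynomial (Fin m) k, a ≠ 0 → FiniteMultiplicity p a := fun a ha =>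
      FiniteMultiplicity.of_prime_left hp ha
    have hfne : ∀ v, v ≠ 0 → f v ≠ ⊤ := by
      intro v hv
      exact finiteMultiplicity_iff_emultiplicity_ne_top.mp (hfin _ fun h => hv (hinj _ h))
    have hfadd : ∀ u v, min (f u) (f v) ≤ f (u + v) := by
      intro u v
      simp only [f, map_add]
      exact min_le_emultiplicity_add
    have hfsmul : ∀ (a : k) v, f v ≤ f (a • v) := by
      intro a v
      simp only [f, map_smul]
      apply emultiplicity_le_emultiplicity_of_dvd_right
      rw [smul_eq_C_mul]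
      exact Dvd.intro_left _ rfl
    have hfz : ∃ v, f v = 0 := by
      obtain ⟨a, ha⟩ := hcop p hp
      refine ⟨Pi.single a 1, ?_⟩
      simp only [f, lin_single]
      exact emultiplicity_eq_zero.mpr ha
    obtain ⟨b, hb⟩ := orth_basis (n + 1) hfr f hf0 hfne hfadd hfsmul
    let τ : Fin (n + 1) → ℕ := fun a => multiplicity p (lin F (b a))
    have hlb : ∀ a, lin F (b a) ≠ 0 := fun a h => b.ne_zero a (hinj _ h)
    have hτ : ∀ a, f (b a) = τ a := fun a =>
      (hfin _ (hlb a)).emultiplicity_eq_multiplicity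
    let T : Hyp d q → ℕ := fun e => multiplicity p (lin F (c e))
    have hT : ∀ e, f (c e) = T e := fun e =>
      (hfin _ (hlc e)).emultiplicity_eq_multiplicity
    have hcomb := comb_ineq n c (fun e : Hyp d q => (1 - 1 / (d e.1 : ℚ))) hwt hklt f hf0 hfadd
      hfsmul hfz b hb T hT τ hτ
    let g : Fin r → ℕ := fun j => multiplicity p (G j)
    have hg : ∀ j, emultiplicity p (G j) = g j := fun j =>
      (hfin _ (hG0 j)).emultiplicity_eq_multiplicity
    have hgT : ∀ j, d j * g j = ∑ ab, T ⟨j, ab⟩ := by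
      intro j
      have h1 := congrArg (emultiplicity p) (hG j)
      rw [emultiplicity_pow hp, Finset.emultiplicity_prod hp, hg j] at h1
      have h2 : ∀ ab, emultiplicity p (lin F (c ⟨j, ab⟩)) = T ⟨j, ab⟩ := fun ab => hT ⟨j, ab⟩
      simp only [h2] at h1
      exact_mod_cast h1
    rw [hsum T g hgT] at hcomb
    have hPm : emultiplicity p P = ((∑ j, (d j - 1) * g j : ℕ) : ℕ∞) := by
      rw [hP, Finset.emultiplicity_prod hp]
      push_cast
      apply Finset.sum_congr rfl
      intro j _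
      rw [emultiplicity_pow hp, hg j]
      simp
    rw [hPm]
    rcases hcomb with ⟨_, h0⟩ | hlt
    · have h0' : (∑ j, (d j - 1) * g j : ℕ) = 0 := by exact_mod_cast h0
      rw [h0']
      exact zero_le
    · have hlt' : (∑ j, (d j - 1) * g j : ℕ) < ∑ a, τ a := by exact_mod_cast hlt
      obtain ⟨S, hS⟩ : ∃ S, ∑ a, τ a = S + 1 := ⟨∑ a, τ a - 1, by omega⟩
      have hw' : ∀ a, ∃ w, lin F (b a) = p ^ τ a * w := fun a =>
        pow_multiplicity_dvd p (lin F (b a))
      choose w hw' using hw'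
      have h1 := pow_dvd_minor p hp.ne_zero ρ w τ S hS
      obtain ⟨u, hu, hdu⟩ := det_basis ρ F b
      have h2 : (Matrix.of fun i a => rowOp (ρ i) (p ^ τ a * w a) :
          Matrix (Fin (n + 1)) (Fin (n + 1)) (MvPolynomial (Fin m) k)) =
          (Matrix.of fun i a => rowOp (ρ i) (lin F (b a))) := by
        ext1 i a
        simp only [Matrix.of_apply, hw']
      rw [h2, hdu] at h1
      have h3 : p ^ S ∣ Dt := by
        have hunit : IsUnit (C u : MvPolynomial (Fin m) k) := by
          apply IsUnit.map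
          exact isUnit_iff_ne_zero.mpr hu
        exact (hunit.dvd_mul_left).mp h1
      refine le_trans ?_ (le_emultiplicity_of_pow_dvd h3)
      exact_mod_cast (by omega : (∑ j, (d j - 1) * g j : ℕ) ≤ S)
  -- degrees
  obtain ⟨a0, ha0, hmax⟩ : ∃ a0, F a0 ≠ 0 ∧ ∀ a, (F a).totalDegree ≤ (F a0).totalDegree := by
    obtain ⟨a1, _, ha1⟩ := Finset.exists_max_image (Finset.univ : Finset (Fin (n + 1)))
      (fun a => (F a).totalDegree) Finset.univ_nonempty
    have hne0 : ∀ a, F a ≠ 0 := by
      intro a h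
      have h1 := hinj (Pi.single a 1) (by rw [lin_single, h])
      have h2 := congrFun h1 a
      rw [Pi.single_eq_same] at h2
      exact one_ne_zero h2
    exact ⟨a1, hne0 a1, fun a => ha1 a (Finset.mem_univ a)⟩
  set D := (F a0).totalDegree with hD
  have hdegle : ∀ v, (lin F v).totalDegree ≤ D := by
    intro v
    rw [lin_apply]
    refine (totalDegree_finsetSum _ _).trans (Finset.sup_le fun a _ => ?_)
    exact (totalDegree_smul_le _ _).trans (hmax a)
  let f : (Fin (n + 1) → k) → ℕ∞ := fun v =>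
    if v = 0 then ⊤ else ((D - (lin F v).totalDegree : ℕ) : ℕ∞)
  have hfv : ∀ v, v ≠ 0 → f v = ((D - (lin F v).totalDegree : ℕ) : ℕ∞) := fun v hv => if_neg hv
  have hf0 : f 0 = ⊤ := if_pos rfl
  have hfne : ∀ v, v ≠ 0 → f v ≠ ⊤ := by
    intro v hv
    rw [hfv v hv]
    exact ENat.natCast_ne_top _
  have hfadd : ∀ u v, min (f u) (f v) ≤ f (u + v) := by
    intro u v
    by_cases hu : u = 0
    · rw [hu, zero_add]; exact min_le_right _ _
    by_cases hv : v = 0
    · rw [hv, add_zero]; exact min_le_left _ _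
    by_cases huv : u + v = 0
    · rw [huv, hf0]; exact le_top
    rw [hfv u hu, hfv v hv, hfv _ huv, map_add]
    have h1 := totalDegree_add (lin F u) (lin F v)
    rcases le_total (lin F u).totalDegree (lin F v).totalDegree with h2 | h2
    · rw [max_eq_right h2] at h1
      refine (min_le_right _ _).trans ?_
      exact_mod_cast Nat.sub_le_sub_left h1 D
    · rw [max_eq_left h2] at h1
      refine (min_le_left _ _).trans ?_
      exact_mod_cast Nat.sub_le_sub_left h1 D
  have hfsmul : ∀ (a : k) v, f v ≤ f (a • v) := by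
    intro a v
    by_cases hav : a • v = 0
    · rw [hav, hf0]; exact le_top
    have hv : v ≠ 0 := by rintro rfl; exact hav (smul_zero a)
    rw [hfv _ hav, hfv v hv, map_smul]
    have h1 := totalDegree_smul_le a (lin F v)
    exact_mod_cast Nat.sub_le_sub_left h1 D
  have hfz : ∃ v, f v = 0 := by
    refine ⟨Pi.single a0 1, ?_⟩
    have hne : (Pi.single a0 1 : Fin (n + 1) → k) ≠ 0 := by
      intro h
      have h2 := congrFun h a0
      rw [Pi.single_eq_same] at h2
      exact one_ne_zero h2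
    rw [hfv _ hne, lin_single, ← hD, Nat.sub_self]
    rfl
  obtain ⟨b, hb⟩ := orth_basis (n + 1) hfr f hf0 hfne hfadd hfsmul
  let τ : Fin (n + 1) → ℕ := fun a => D - (lin F (b a)).totalDegree
  have hτ : ∀ a, f (b a) = τ a := fun a => hfv _ (b.ne_zero a)
  let T : Hyp d q → ℕ := fun e => D - (lin F (c e)).totalDegree
  have hT : ∀ e, f (c e) = T e := fun e => hfv _ (hc0 e)
  have hcomb := comb_ineq n c (fun e : Hyp d q => (1 - 1 / (d e.1 : ℚ))) hwt hklt f hf0 hfadd
    hfsmul hfz b hb T hT τ hτ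
  have hcomb' : ∑ e : Hyp d q, (1 - 1 / (d e.1 : ℚ)) * (T e : ℚ) ≤ ((∑ a, τ a : ℕ) : ℚ) := by
    rcases hcomb with ⟨h1, h2⟩ | h
    · rw [h2]; positivity
    · exact h.le
  -- degree of the product
  have hgdeg : ∀ j, d j * (G j).totalDegree = ∑ ab, (lin F (c ⟨j, ab⟩)).totalDegree := by
    intro j
    have hpow : ∀ t : ℕ, (G j ^ t).totalDegree = t * (G j).totalDegree := by
      intro t
      induction t with
      | zero => simp
      | succ t ih =>
        rw [pow_succ, totalDegree_mul_of_isDomain (pow_ne_zero _ (hG0 j)) (hG0 j), ih]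
        ring
    have hprod : ∀ s : Finset (Fin (q j) × Fin (d j)),
        (∏ ab ∈ s, lin F (c ⟨j, ab⟩)).totalDegree = ∑ ab ∈ s, (lin F (c ⟨j, ab⟩)).totalDegree := by
      intro s
      induction s using Finset.induction_on with
      | empty => simp
      | insert a s ha ih =>
        rw [Finset.prod_insert ha, Finset.sum_insert ha, totalDegree_mul_of_isDomain (hlc _)
          (Finset.prod_ne_zero_iff.mpr fun ab _ => hlc _), ih]
    rw [← hpow, hG j, hprod]
  have hPdeg : P.totalDegree = ∑ j, (d j - 1) * (G j).totalDegree := by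
    have hpow : ∀ j, ∀ t : ℕ, (G j ^ t).totalDegree = t * (G j).totalDegree := by
      intro j t
      induction t with
      | zero => simp
      | succ t ih =>
        rw [pow_succ, totalDegree_mul_of_isDomain (pow_ne_zero _ (hG0 j)) (hG0 j), ih]
        ring
    have hprod : ∀ s : Finset (Fin r),
        (∏ j ∈ s, G j ^ (d j - 1)).totalDegree = ∑ j ∈ s, (d j - 1) * (G j).totalDegree := by
      intro s
      induction s using Finset.induction_on with
      | empty => simp
      | insert a s ha ih =>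
        rw [Finset.prod_insert ha, Finset.sum_insert ha,
          totalDegree_mul_of_isDomain (pow_ne_zero _ (hG0 _))
          (Finset.prod_ne_zero_iff.mpr fun j _ => pow_ne_zero _ (hG0 j)), ih, hpow]
    exact hprod _
  have h1 : ∑ e : Hyp d q, (1 - 1 / (d e.1 : ℚ)) * ((lin F (c e)).totalDegree : ℚ) =
      (P.totalDegree : ℚ) := by
    rw [hPdeg]
    exact hsum (fun e => (lin F (c e)).totalDegree) (fun j => (G j).totalDegree) hgdeg
  have h2 : ∑ e : Hyp d q, (1 - 1 / (d e.1 : ℚ)) * ((lin F (c e)).totalDegree : ℚ) =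
      (∑ e : Hyp d q, (1 - 1 / (d e.1 : ℚ))) * D -
        ∑ e : Hyp d q, (1 - 1 / (d e.1 : ℚ)) * (T e : ℚ) := by
    rw [Finset.sum_mul, ← Finset.sum_sub_distrib]
    apply Finset.sum_congr rfl
    intro e _
    have : ((T e : ℕ) : ℚ) = (D : ℚ) - ((lin F (c e)).totalDegree : ℚ) := by
      simp only [T]
      rw [Nat.cast_sub (hdegle _)]
    rw [this]
    ring
  obtain ⟨u, hu, hdu⟩ := det_basis ρ F b
  have hdetb : (Matrix.of fun i a => rowOp (ρ i) (lin F (b a)) :
      Matrix (Fin (n + 1)) (Fin (n + 1)) (MvPolynomial (Fin m) k)).det ≠ 0 := by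
    rw [hdu]
    exact mul_ne_zero (by rw [Ne, C_eq_zero]; exact hu) hdet
  have h3 := totalDegree_det_lt hn ρ (fun a => lin F (b a)) hdetb
  rw [hdu, totalDegree_mul_of_isDomain (by rw [Ne, C_eq_zero]; exact hu) hdet, totalDegree_C,
    zero_add] at h3
  have h4 : P.totalDegree ≤ Dt.totalDegree := totalDegree_le_of_dvd_of_isDomain hdvd hdet
  have h5 : ((∑ a, (lin F (b a)).totalDegree : ℕ) : ℚ) = ((n : ℚ) + 1) * D -
      ((∑ a, τ a : ℕ) : ℚ) := by
    push_cast
    have : ∀ a, ((τ a : ℕ) : ℚ) = (D : ℚ) - ((lin F (b a)).totalDegree : ℚ) := by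
      intro a
      simp only [τ]
      rw [Nat.cast_sub (hdegle _)]
    simp only [this]
    rw [Finset.sum_sub_distrib, Finset.sum_const, Finset.card_univ, Fintype.card_fin]
    simp
  have h6 : (P.totalDegree : ℚ) + 1 ≤ ((∑ a, (lin F (b a)).totalDegree : ℕ) : ℚ) := by
    exact_mod_cast (by omega : P.totalDegree + 1 ≤ ∑ a, (lin F (b a)).totalDegree)
  rw [h5, ← h1, h2] at h6
  have h7 : ((n : ℚ) + 1) * D ≤ (∑ e : Hyp d q, (1 - 1 / (d e.1 : ℚ))) * D :=
    mul_le_mul_of_nonneg_right hw (by positivity)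
  linarith

end Pool.Agent.Helper98.KA
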