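import Mathlib
import Pool.Agent.Helper98.KA.NSide2

namespace Pool.Agent.Helper98.KA

open MvPolynomial Module

/-- A linear form does not vanish at algebraically independent coordinates. -/
theorem linform_ne_zero {k L : Type*} [Field k] [Field L] [Algebra k L] {n : ℕ} {x : Fin n → L}
    (hx : AlgebraicIndependent k x) (v : Fin (n + 1) → k)
    (h : algebraMap k L (v 0) + ∑ i : Fin n, algebraMap k L (v i.succ) * x i = 0) : v = 0 := by
  classical
  let P : MvPolynomial (Fin n) k := C (v 0) + ∑ i : Fin n, C (v i.succ) * X i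
  have hP : aeval x P = 0 := by
    simp only [P, map_add, map_sum, map_mul, aeval_C, aeval_X]
    exact h
  have hP0 : P = 0 := hx.eq_zero_of_aeval_eq_zero P hP
  have h0 : v 0 = 0 := by
    have := congrArg (coeff 0) hP0
    simp only [P, coeff_add, coeff_sum, coeff_C_mul, coeff_zero] at this
    simpa using this
  have hs : ∀ i : Fin n, v i.succ = 0 := by
    intro i
    have := congrArg (coeff (Finsupp.single i 1)) hP0
    simp only [P, coeff_add, coeff_sum, coeff_C_mul, coeff_zero, coeff_X, coeff_C] at this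
    rw [if_neg (by
      intro h'
      have := DFunLike.congr_fun h' i
      simp at this), zero_add, Finset.sum_eq_single i] at this
    · simpa using this
    · intro b _ hb
      rw [if_neg, mul_zero]
      intro h'
      have := Finsupp.single_left_injective (one_ne_zero) h'
      exact hb this
    · intro h'; exact absurd (Finset.mem_univ _) h'
  funext a
  rcases Fin.eq_zero_or_eq_succ a with h' | ⟨j, h'⟩
  · rw [h', h0]; rfl
  · rw [h', hs]; rfl

theorem not_unirational_aux {k L : Type*} [Field k] [CharZero k] [Field L] [Algebra k L]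
    {m n r : ℕ} [Algebra (MvPolynomial (Fin m) k) L]
    [IsScalarTower k (MvPolynomial (Fin m) k) L] [IsFractionRing (MvPolynomial (Fin m) k) L]
    (hn : 1 ≤ n) (d q : Fin r → ℕ) (hd : ∀ j, 2 ≤ d j) (c : Hyp d q → Fin (n + 1) → k)
    (hklt : IsKlt d q c) (hw : (n : ℚ) + 1 ≤ ∑ e : Hyp d q, (1 - 1 / (d e.1 : ℚ)))
    (x : Fin n → L) (hx : AlgebraicIndependent k x) (y : Fin r → L)
    (hy : ∀ j, y j ^ d j = ∏ ab, (algebraMap k L (c ⟨j, ab⟩ 0) +
      ∑ i : Fin n, algebraMap k L (c ⟨j, ab⟩ i.succ) * x i)) : False := by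
  classical
  obtain ⟨F, hF0, hF, hcop⟩ := exists_coprime_rep (k := k) (m := m) x
  set φ := algebraMap (MvPolynomial (Fin m) k) L with hφ
  have hφinj : Function.Injective φ := IsFractionRing.injective _ _
  have hφ0 : φ (F 0) ≠ 0 := by
    rw [Ne, map_eq_zero_iff φ hφinj]
    exact hF0
  have hlin : ∀ v : Fin (n + 1) → k, φ (lin F v) = φ (F 0) *
      (algebraMap k L (v 0) + ∑ i : Fin n, algebraMap k L (v i.succ) * x i) := by
    intro v
    rw [lin_apply, map_sum, Fin.sum_univ_succ]
    have h1 : ∀ (a : k) (P : MvPolynomial (Fin m) k), φ (a • P) = algebraMap k L a * φ P := by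
      intro a P
      rw [smul_eq_C_mul, map_mul]
      congr 1
      rw [IsScalarTower.algebraMap_apply k (MvPolynomial (Fin m) k) L]
      rfl
    rw [h1, mul_add, Finset.mul_sum]
    congr 1
    · ring
    · apply Finset.sum_congr rfl
      intro i _
      rw [h1, hF i]
      ring
  have hinj : ∀ v, lin F v = 0 → v = 0 := by
    intro v hv
    have h := hlin v
    rw [hv, map_zero] at h
    exact linform_ne_zero hx v ((mul_eq_zero.mp h.symm).resolve_left hφ0)
  obtain ⟨ρ, hρ⟩ := exists_minor hφinj F hF0 x hx hF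
  -- the roots are polynomials
  have hG : ∀ j, ∃ G : MvPolynomial (Fin m) k, G ^ d j = ∏ ab, lin F (c ⟨j, ab⟩) := by
    intro j
    have hpow : (y j * φ (F 0) ^ q j) ^ d j = φ (∏ ab, lin F (c ⟨j, ab⟩)) := by
      rw [map_prod, Finset.prod_congr rfl (fun ab _ => hlin (c ⟨j, ab⟩)), Finset.prod_mul_distrib,
        mul_pow, hy j, Finset.prod_const, Finset.card_univ, Fintype.card_prod, Fintype.card_fin,
        Fintype.card_fin, ← pow_mul, mul_comm]
    have hint : IsIntegral (MvPolynomial (Fin m) k) ((y j * φ (F 0) ^ q j) ^ d j) := by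
      rw [hpow]
      exact isIntegral_algebraMap
    obtain ⟨G, hG⟩ := IsIntegrallyClosed.exists_algebraMap_eq_of_isIntegral_pow
      (by have := hd j; omega) hint
    refine ⟨G, ?_⟩
    apply hφinj
    rw [map_pow, hG, hpow]
  choose G hG using hG
  exact nside hn d q hd c hklt hw F hcop hinj ρ hρ G hG

end Pool.Agent.Helper98.KA
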