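import Mathlib
import Pool.Agent.Helper98.KA.Ext

namespace Pool.Agent.Helper98.KA

open Module Matrix

section

variable {k F : Type*} [Field k] [Field F] [Algebra k F] {n : ℕ}

/-- Coefficientwise action of a derivation. -/
def dvec (δ : Derivation k F F) (a : Fin (n + 1) → F) : Fin (n + 1) → F := fun j => δ (a j)

theorem dvec_add (δ : Derivation k F F) (a b : Fin (n + 1) → F) :
    dvec δ (a + b) = dvec δ a + dvec δ b := by
  funext j; simp [dvec]

theorem dvec_smul (δ : Derivation k F F) (f : F) (a : Fin (n + 1) → F) :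
    dvec δ (f • a) = f • dvec δ a + δ f • a := by
  funext j
  simp only [dvec, Pi.smul_apply, Pi.add_apply, smul_eq_mul, Derivation.leibniz]
  ring

theorem dvec_dot (δ : Derivation k F F) (a b : Fin (n + 1) → F) :
    δ (a ⬝ᵥ b) = dvec δ a ⬝ᵥ b + a ⬝ᵥ dvec δ b := by
  simp only [dotProduct, map_sum, Derivation.leibniz, smul_eq_mul, dvec]
  rw [← Finset.sum_add_distrib]
  apply Finset.sum_congr rfl
  intro j _
  ring

/-- A subspace is stable under the coefficientwise action. -/
def Stable (δ : Derivation k F F) (A : Submodule F (Fin (n + 1) → F)) : Prop :=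
  ∀ a ∈ A, dvec δ a ∈ A

theorem stable_span (δ : Derivation k F F) (s : Set (Fin (n + 1) → F))
    (h : ∀ a ∈ s, dvec δ a = 0) : Stable δ (Submodule.span F s) := by
  intro a ha
  induction ha using Submodule.span_induction with
  | mem a ha => rw [h a ha]; exact Submodule.zero_mem _
  | zero =>
    have : dvec δ (0 : Fin (n + 1) → F) = 0 := by
      funext j; simp [dvec]
    rw [this]; exact Submodule.zero_mem _
  | add a b _ _ ha hb => rw [dvec_add]; exact Submodule.add_mem _ ha hb
  | smul f a ha' ha =>
    rw [dvec_smul]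
    exact Submodule.add_mem _ (Submodule.smul_mem _ _ ha) (Submodule.smul_mem _ _ ha')

theorem stable_sup (δ : Derivation k F F) {A B : Submodule F (Fin (n + 1) → F)}
    (hA : Stable δ A) (hB : Stable δ B) : Stable δ (A ⊔ B) := by
  intro a ha
  obtain ⟨u, hu, v, hv, rfl⟩ := Submodule.mem_sup.mp ha
  rw [dvec_add]
  exact Submodule.add_mem_sup (hA u hu) (hB v hv)

theorem stable_inf (δ : Derivation k F F) {A B : Submodule F (Fin (n + 1) → F)}
    (hA : Stable δ A) (hB : Stable δ B) : Stable δ (A ⊓ B) :=
  fun a ha => ⟨hA a ha.1, hB a ha.2⟩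

/-- Vectors over the base field. -/
def vmap (v : Fin (n + 1) → k) : Fin (n + 1) → F := fun j => algebraMap k F (v j)

theorem dvec_vmap (δ : Derivation k F F) (v : Fin (n + 1) → k) :
    dvec δ (vmap (F := F) v) = 0 := by
  funext j
  simp [dvec, vmap]

/-- The projective point `(1, x_1, …, x_n)`. -/
def pt (x : Fin n → F) : Fin (n + 1) → F := Fin.cons 1 x

/-- The key lemma: a stable subspace contained in the hyperplane orthogonal to the generic point
is contained in `U`. -/
theorem le_of_stable (x : Fin n → F)
    (hder : ∀ v : Fin n → F, ∃ δ : Derivation k F F, ∀ i, δ (x i) = v i)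
    (U A : Submodule F (Fin (n + 1) → F)) (hU : ∀ u ∈ U, u ⬝ᵥ pt x = 0)
    (hA : ∀ a ∈ A, a ⬝ᵥ pt x = 0)
    (hst : ∀ δ : Derivation k F F, (∀ u ∈ U, u ⬝ᵥ dvec δ (pt x) = 0) → Stable δ A) : A ≤ U := by
  classical
  intro a ha
  by_contra hau
  obtain ⟨f, hfa, hf⟩ := Submodule.exists_le_ker_of_notMem hau
  let v : Fin (n + 1) → F := fun j => f (Pi.single j 1)
  have hfv : ∀ u : Fin (n + 1) → F, f u = u ⬝ᵥ v := by
    intro u
    conv_lhs => rw [pi_eq_sum_univ u]
    rw [map_sum, dotProduct]
    apply Finset.sum_congr rfl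
    intro j _
    rw [map_smul, smul_eq_mul]
    congr 2
    ext b
    by_cases h : j = b
    · subst h; simp
    · rw [if_neg h, Pi.single_eq_of_ne (fun h' => h h'.symm)]
  obtain ⟨δ, hδ⟩ := hder (fun i => v i.succ - v 0 * x i)
  have hδpt : dvec δ (pt x) = v - v 0 • pt x := by
    funext j
    refine Fin.cases ?_ (fun i => ?_) j
    · simp [dvec, pt]
    · simp [dvec, pt, hδ]
  have hUδ : ∀ u ∈ U, u ⬝ᵥ dvec δ (pt x) = 0 := by
    intro u hu
    rw [hδpt, dotProduct_sub, dotProduct_smul, hU u hu, smul_zero, sub_zero, ← hfv]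
    exact hf hu
  have h1 := hst δ hUδ a ha
  have h2 := hA _ h1
  have h3 : δ (a ⬝ᵥ pt x) = 0 := by rw [hA a ha, map_zero]
  rw [dvec_dot, h2, zero_add, hδpt, dotProduct_sub, dotProduct_smul, hA a ha, smul_zero,
    sub_zero, ← hfv] at h3
  exact hfa h3

end

set_option linter.unusedSectionVars false

section blocks

variable {k F : Type*} [Field k] [Field F] [Algebra k F] {n : ℕ} {β : Type*} [DecidableEq β]
  {M : β → ℕ} (x : Fin n → F) (b : β → Fin (n + 1) → k) (c : (i : β) → Fin (M i) → Fin (n + 1) → k)

/-- The ratios of the members of a block to its base member. -/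
noncomputable def ratio (i : β) (e : Fin (M i)) : F :=
  (vmap (F := F) (c i e) ⬝ᵥ pt x) / (vmap (F := F) (b i) ⬝ᵥ pt x)

/-- The linear forms which vanish at the generic point. -/
noncomputable def cut (i : β) (e : Fin (M i)) : Fin (n + 1) → F :=
  vmap (c i e) - ratio x b c i e • vmap (b i)

/-- The span of the cut forms. -/
noncomputable def Usp (G : Finset β) : Submodule F (Fin (n + 1) → F) :=
  Submodule.span F {u | ∃ i ∈ G, ∃ e, u = cut x b c i e}

/-- The span of all the members of the blocks. -/
noncomputable def Ssp (G : Finset β) : Submodule F (Fin (n + 1) → F) :=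
  Submodule.span F {u | ∃ i ∈ G, u = vmap (b i) ∨ ∃ e, u = vmap (c i e)}

variable {x b c}

theorem cut_dot (hb : ∀ i, vmap (F := F) (b i) ⬝ᵥ pt x ≠ 0) (i : β) (e : Fin (M i)) :
    cut x b c i e ⬝ᵥ pt x = 0 := by
  rw [cut, sub_dotProduct, smul_dotProduct, ratio, smul_eq_mul, div_mul_cancel₀ _ (hb i), sub_self]

theorem Usp_dot (hb : ∀ i, vmap (F := F) (b i) ⬝ᵥ pt x ≠ 0) (G : Finset β) :
    ∀ u ∈ Usp x b c G, u ⬝ᵥ pt x = 0 := by
  intro u hu
  induction hu using Submodule.span_induction with
  | mem u hu =>
    obtain ⟨i, _, e, rfl⟩ := hu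
    exact cut_dot hb i e
  | zero => exact zero_dotProduct _
  | add u v _ _ hu hv => rw [add_dotProduct, hu, hv, add_zero]
  | smul f u _ hu => rw [smul_dotProduct, hu, smul_zero]

theorem stable_U (hb : ∀ i, vmap (F := F) (b i) ⬝ᵥ pt x ≠ 0) (G : Finset β)
    (δ : Derivation k F F) (hδ : ∀ u ∈ Usp x b c G, u ⬝ᵥ dvec δ (pt x) = 0) :
    Stable δ (Usp x b c G) := by
  apply stable_span
  rintro _ ⟨i, hi, e, rfl⟩
  have h1 : cut x b c i e ⬝ᵥ dvec δ (pt x) = 0 := hδ _ (Submodule.subset_span ⟨i, hi, e, rfl⟩)
  -- the ratio is killed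
  have h2 : ratio x b c i e * (vmap (F := F) (b i) ⬝ᵥ pt x) = vmap (F := F) (c i e) ⬝ᵥ pt x := by
    rw [ratio, div_mul_cancel₀ _ (hb i)]
  have h3 := congrArg δ h2
  rw [Derivation.leibniz, dvec_dot, dvec_dot, dvec_vmap, dvec_vmap] at h3
  simp only [zero_dotProduct, zero_add, smul_eq_mul] at h3
  rw [cut, sub_dotProduct, smul_dotProduct, smul_eq_mul] at h1
  have h4 : (vmap (F := F) (b i) ⬝ᵥ pt x) * δ (ratio x b c i e) = 0 := by
    linear_combination h3 + h1
  have h5 : δ (ratio x b c i e) = 0 := (mul_eq_zero.mp h4).resolve_left (hb i)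
  have h6 : cut x b c i e = vmap (c i e) + (- ratio x b c i e) • vmap (b i) := by
    rw [cut, neg_smul, sub_eq_add_neg]
  rw [h6, dvec_add, dvec_smul, dvec_vmap, dvec_vmap, map_neg, h5]
  simp

theorem stable_S (G : Finset β) (δ : Derivation k F F) :
    Stable δ (Ssp (F := F) b c G) := by
  apply stable_span
  rintro _ ⟨i, _, rfl | ⟨e, rfl⟩⟩
  · exact dvec_vmap δ _
  · exact dvec_vmap δ _

theorem Usp_mono {G G' : Finset β} (h : G ⊆ G') : Usp x b c G ≤ Usp x b c G' := by
  apply Submodule.span_mono
  rintro _ ⟨i, hi, e, rfl⟩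
  exact ⟨i, h hi, e, rfl⟩

theorem Ssp_mono {G G' : Finset β} (h : G ⊆ G') : Ssp (F := F) b c G ≤ Ssp b c G' := by
  apply Submodule.span_mono
  rintro _ ⟨i, hi, hu⟩
  exact ⟨i, h hi, hu⟩

theorem Usp_insert (i : β) (G : Finset β) :
    Usp x b c (insert i G) = Submodule.span F (Set.range (cut x b c i)) ⊔ Usp x b c G := by
  apply le_antisymm
  · apply Submodule.span_le.mpr
    rintro _ ⟨i', hi', e, rfl⟩
    rcases Finset.mem_insert.mp hi' with rfl | hi'
    · exact Submodule.mem_sup_left (Submodule.subset_span ⟨e, rfl⟩)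
    · exact Submodule.mem_sup_right (Submodule.subset_span ⟨i', hi', e, rfl⟩)
  · apply sup_le
    · apply Submodule.span_le.mpr
      rintro _ ⟨e, rfl⟩
      exact Submodule.subset_span ⟨i, Finset.mem_insert_self _ _, e, rfl⟩
    · exact Usp_mono (Finset.subset_insert _ _)

theorem Ssp_insert (i : β) (G : Finset β) :
    Ssp (F := F) b c (insert i G) = Ssp b c {i} ⊔ Ssp b c G := by
  apply le_antisymm
  · apply Submodule.span_le.mpr
    rintro _ ⟨i', hi', hu⟩
    rcases Finset.mem_insert.mp hi' with rfl | hi'
    · exact Submodule.mem_sup_left (Submodule.subset_span ⟨i', Finset.mem_singleton_self _, hu⟩)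
    · exact Submodule.mem_sup_right (Submodule.subset_span ⟨i', hi', hu⟩)
  · apply sup_le
    · apply Ssp_mono
      rw [Finset.singleton_subset_iff]
      exact Finset.mem_insert_self _ _
    · exact Ssp_mono (Finset.subset_insert _ _)

/-- Generic independence of the cut forms under the sparsity condition. -/
theorem finrank_Usp (hder : ∀ v : Fin n → F, ∃ δ : Derivation k F F, ∀ i, δ (x i) = v i)
    (hb : ∀ i, vmap (F := F) (b i) ⬝ᵥ pt x ≠ 0)
    (hsp : ∀ G : Finset β, G.Nonempty → ∑ i ∈ G, M i < finrank F (Ssp (F := F) b c G))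
    (G : Finset β) :
    finrank F (Usp x b c G) = ∑ i ∈ G, M i ∧
    ∀ G' : Finset β, G'.Nonempty → Disjoint G G' →
      ∑ i ∈ G', M i + finrank F (Usp x b c G) <
        finrank F (Ssp (F := F) b c G' ⊔ Usp x b c G : Submodule F (Fin (n + 1) → F)) := by
  induction G using Finset.induction_on with
  | empty =>
    have h0 : Usp x b c (∅ : Finset β) = ⊥ := by
      rw [Usp, Submodule.span_eq_bot]
      rintro _ ⟨i, hi, _⟩
      exact absurd hi (Finset.notMem_empty i)
    rw [h0]
    refine ⟨by simp, fun G' hG' _ => ?_⟩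
    rw [finrank_bot, add_zero, sup_bot_eq]
    exact hsp G' hG'
  | insert i G hi ih =>
    obtain ⟨ih1, ih2⟩ := ih
    set U := Usp x b c G with hUdef
    set U1 := Usp x b c (insert i G) with hU1def
    set T : Submodule F (Fin (n + 1) → F) := Ssp b c {i} ⊔ U with hTdef
    have hUU1 : U ≤ U1 := Usp_mono (Finset.subset_insert _ _)
    have hcutT : ∀ e, cut x b c i e ∈ Ssp (F := F) b c {i} := by
      intro e
      apply Submodule.sub_mem
      · exact Submodule.subset_span ⟨i, Finset.mem_singleton_self _, Or.inr ⟨e, rfl⟩⟩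
      · apply Submodule.smul_mem
        exact Submodule.subset_span ⟨i, Finset.mem_singleton_self _, Or.inl rfl⟩
    have hU1T : U1 ≤ T := by
      rw [hU1def, Usp_insert]
      apply sup_le_sup_right
      apply Submodule.span_le.mpr
      rintro _ ⟨e, rfl⟩
      exact hcutT e
    have hT1 : T ≤ U1 ⊔ Submodule.span F {vmap (F := F) (b i)} := by
      apply sup_le
      · apply Submodule.span_le.mpr
        rintro _ ⟨i', hi', hu⟩
        rw [Finset.mem_singleton] at hi'
        subst hi'
        rcases hu with rfl | ⟨e, rfl⟩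
        · exact Submodule.mem_sup_right (Submodule.mem_span_singleton_self _)
        · have : vmap (F := F) (c i' e) = cut x b c i' e + ratio x b c i' e • vmap (b i') := by
            rw [cut]; abel
          rw [this]
          apply Submodule.add_mem
          · apply Submodule.mem_sup_left
            exact Submodule.subset_span ⟨i', Finset.mem_insert_self _ _, e, rfl⟩
          · apply Submodule.mem_sup_right
            exact Submodule.smul_mem _ _ (Submodule.mem_span_singleton_self _)
      · exact le_sup_of_le_left hUU1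
    have hdT : finrank F T ≤ finrank F U1 + 1 := by
      refine (Submodule.finrank_mono hT1).trans ?_
      refine (Submodule.finrank_add_le_finrank_add_finrank _ _).trans ?_
      have : finrank F (Submodule.span F {vmap (F := F) (b i)}) ≤ 1 := by
        have := finrank_span_le_card (R := F) ({vmap (F := F) (b i)} : Set (Fin (n + 1) → F))
        simpa using this
      omega
    have hi2 : Disjoint G {i} := by
      rw [Finset.disjoint_singleton_right]; exact hi
    have hTlow := ih2 {i} (Finset.singleton_nonempty i) hi2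
    rw [Finset.sum_singleton] at hTlow
    have hU1up : finrank F U1 ≤ M i + finrank F U := by
      rw [hU1def, Usp_insert, ← hUdef]
      refine (Submodule.finrank_add_le_finrank_add_finrank _ _).trans ?_
      have : finrank F (Submodule.span F (Set.range (cut x b c i))) ≤ M i := by
        have := finrank_range_le_card (R := F) (cut x b c i)
        rw [Fintype.card_fin] at this
        exact this
      omega
    have hTlow' : M i + finrank F U < finrank F T := hTlow
    have hU1 : finrank F U1 = M i + finrank F U := by omega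
    have hTeq : finrank F T = finrank F U1 + 1 := by omega
    refine ⟨?_, ?_⟩
    · rw [hU1, ih1, Finset.sum_insert hi]
    · intro G' hG' hdis
      rw [Finset.disjoint_insert_left] at hdis
      obtain ⟨hiG', hdis⟩ := hdis
      set S : Submodule F (Fin (n + 1) → F) := Ssp b c G' ⊔ U with hSdef
      have hSU1 : Ssp (F := F) b c G' ⊔ U1 = S ⊔ U1 := by
        rw [hSdef, sup_assoc, sup_eq_right.mpr hUU1]
      rw [hSU1]
      by_cases hcase : S ⊓ T ≤ U
      · have h1 : S ⊓ U1 = U := by
          apply le_antisymm
          · exact (inf_le_inf_left S hU1T).trans hcase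
          · exact le_inf le_sup_right hUU1
        have h2 := Submodule.finrank_sup_add_finrank_inf_eq S U1
        rw [h1] at h2
        have h3 := ih2 G' hG' hdis
        have h4 : ∑ i ∈ G', M i + finrank F U < finrank F S := h3
        omega
      · have hex : ∃ a ∈ S ⊓ T, a ⬝ᵥ pt x ≠ 0 := by
          by_contra hall
          push Not at hall
          apply hcase
          apply le_of_stable x hder U (S ⊓ T) (Usp_dot hb G) hall
          intro δ hδ
          have hsU := stable_U hb G δ hδ
          exact stable_inf δ (stable_sup δ (stable_S G' δ) hsU)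
            (stable_sup δ (stable_S {i} δ) hsU)
        obtain ⟨a, haST, ha⟩ := hex
        have haU1 : a ∉ U1 := fun h => ha (Usp_dot hb _ a h)
        have hlt : U1 < U1 ⊔ Submodule.span F {a} := by
          rw [left_lt_sup]
          intro h
          exact haU1 (h (Submodule.mem_span_singleton_self a))
        have hle : U1 ⊔ Submodule.span F {a} ≤ T := by
          apply sup_le hU1T
          rw [Submodule.span_singleton_le_iff_mem]
          exact haST.2
        have h5 := Submodule.finrank_lt_finrank_of_lt hlt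
        have h6 : U1 ⊔ Submodule.span F {a} = T :=
          Submodule.eq_of_le_of_finrank_le hle (by omega)
        have hTle : T ≤ S ⊔ U1 := by
          rw [← h6]
          apply sup_le le_sup_right
          rw [Submodule.span_singleton_le_iff_mem]
          exact Submodule.mem_sup_left haST.1
        have h7 := ih2 (insert i G') (Finset.insert_nonempty _ _) (by
          rw [Finset.disjoint_insert_right]
          exact ⟨hi, hdis⟩)
        rw [Finset.sum_insert hiG', Ssp_insert] at h7
        have h8 : Ssp (F := F) b c {i} ⊔ Ssp b c G' ⊔ U ≤ S ⊔ U1 := by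
          apply sup_le
          · apply sup_le
            · exact le_trans le_sup_left hTle
            · exact le_sup_of_le_left le_sup_left
          · exact le_sup_of_le_left le_sup_right
        have h9 := Submodule.finrank_mono h8
        omega

end blocks

end Pool.Agent.Helper98.KA
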