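import Mathlib
import Pool.Agent.Helper98.KA.RSide1
import Pool.Agent.Helper98.KA.Defs

namespace Pool.Agent.Helper98.KA

open Module Matrix

/-- Linear equations with coefficients in a subfield cut down the number of generators. -/
theorem solve {k F : Type*} [Field k] [Field F] [Algebra k F] {n : ℕ} (E : IntermediateField k F)
    (x : Fin n → F) {ι : Type*} [Fintype ι] (C : ι → Fin (n + 1) → F)
    (hE : ∀ i a, C i a ∈ E) (hli : LinearIndependent F C) (hC : ∀ i, C i ⬝ᵥ pt x = 0) :
    ∃ s : Finset F, s.card + Fintype.card ι ≤ n ∧ 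
      ∀ i, x i ∈ Submodule.span E (insert 1 (s : Set F)) := by
  classical
  let C' : ι → Fin (n + 1) → E := fun i a => ⟨C i a, hE i a⟩
  have hC' : LinearIndependent E C' := by
    rw [← linearIndependent_algebraMap_comp_iff (S := F)]
    exact hli
  let ψ : (Fin (n + 1) → E) →ₗ[E] F := Fintype.linearCombination E (pt x)
  have hker : Submodule.span E (Set.range C') ≤ LinearMap.ker ψ := by
    rw [Submodule.span_le]
    rintro _ ⟨i, rfl⟩
    change ψ (C' i) = 0
    simp only [ψ, Fintype.linearCombination_apply]
    exact hC i
  have h1 : Fintype.card ι ≤ finrank E (LinearMap.ker ψ) := by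
    rw [← finrank_span_eq_card hC']
    exact Submodule.finrank_mono hker
  have h2 := LinearMap.finrank_range_add_finrank_ker ψ
  rw [finrank_fin_fun] at h2
  have h3 : LinearMap.range ψ = Submodule.span E (Set.range (pt x)) :=
    Fintype.range_linearCombination E (pt x)
  have h1mem : (1 : F) ∈ Set.range (pt x) := ⟨0, rfl⟩
  have hli1 : LinearIndepOn E id ({1} : Set F) := by
    apply LinearIndepOn.singleton
    exact one_ne_zero
  obtain ⟨b, hb1, hb2, hb3, hb4⟩ := exists_linearIndepOn_id_extension hli1
    (Set.singleton_subset_iff.mpr h1mem)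
  have hbfin : b.Finite := (Set.finite_range (pt x)).subset hb1
  have hbspan : Submodule.span E b = Submodule.span E (Set.range (pt x)) :=
    le_antisymm (Submodule.span_mono hb1) (Submodule.span_le.mpr hb3)
  have hbcard : hbfin.toFinset.card = finrank E (Submodule.span E (Set.range (pt x))) := by
    rw [← hbspan]
    have : Fintype b := hbfin.fintype
    have h4 := finrank_span_set_eq_card hb4
    rw [h4]
    congr 1
    ext a
    simp
  have h1b : (1 : F) ∈ hbfin.toFinset := by
    rw [Set.Finite.mem_toFinset]
    exact hb2 rfl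
  refine ⟨hbfin.toFinset.erase 1, ?_, ?_⟩
  · rw [Finset.card_erase_of_mem h1b, hbcard, ← h3]
    have : 1 ≤ finrank E (LinearMap.range ψ) := by
      rw [h3, ← hbcard]
      exact Finset.card_pos.mpr ⟨1, h1b⟩
    omega
  · intro i
    have hx : x i ∈ Submodule.span E b := hb3 ⟨i.succ, rfl⟩
    convert hx using 2
    ext a
    simp only [Finset.coe_erase, Set.Finite.coe_toFinset, Set.insert_sdiff_singleton,
      Set.mem_insert_iff]
    constructor
    · rintro (rfl | h)
      · exact hb2 rfl
      · exact h
    · exact fun h => Or.inr h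

theorem isAlgebraic_of_adjoin_eq_top {k F : Type*} [Field k] [Field F] [Algebra k F] (s : Set F)
    (h : IntermediateField.adjoin k s = ⊤) : Algebra.IsAlgebraic (Algebra.adjoin k s) F := by
  refine ⟨fun a => ?_⟩
  have ha : a ∈ IntermediateField.adjoin k s := by rw [h]; trivial
  rw [IntermediateField.mem_adjoin_iff_div] at ha
  obtain ⟨p, hp, q, hq, rfl⟩ := ha
  by_cases hq0 : q = 0
  · rw [hq0, div_zero]
    exact isAlgebraic_zero
  · refine ⟨Polynomial.C ⟨q, hq⟩ * Polynomial.X - Polynomial.C ⟨p, hp⟩, ?_, ?_⟩
    · intro h0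
      have h1 := congrArg (fun P => Polynomial.coeff P 1) h0
      simp at h1
      exact hq0 (congrArg Subtype.val h1)
    · simp only [map_sub, map_mul, Polynomial.aeval_C, Polynomial.aeval_X]
      change q * (p / q) - p = 0
      field_simp
      ring

/-- A field generated by at most `n` elements, of transcendence degree `n`, is purely
transcendental. -/
theorem rational_of_gens {k F : Type*} [Field k] [Field F] [Algebra k F] {n : ℕ} {x : Fin n → F}
    (hx : IsTranscendenceBasis k x) (s : Finset F) (hcard : s.card ≤ n)
    (hadj : IntermediateField.adjoin k (s : Set F) = ⊤) :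
    Nonempty (F ≃ₐ[k] FractionRing (MvPolynomial (Fin s.card) k)) := by
  classical
  let y : Fin s.card → F := fun i => (s.equivFin.symm i : F)
  have hy : Set.range y = (s : Set F) := by
    ext a
    constructor
    · rintro ⟨i, rfl⟩
      exact (s.equivFin.symm i).2
    · intro ha
      exact ⟨s.equivFin ⟨a, ha⟩, by simp [y]⟩
  have halg : Algebra.IsAlgebraic (Algebra.adjoin k (Set.range y)) F := by
    rw [hy]
    exact isAlgebraic_of_adjoin_eq_top _ hadj
  have htr := hx.lift_cardinalMk_eq_trdeg
  have hyb : IsTranscendenceBasis k y := by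
    apply Algebra.IsAlgebraic.isTranscendenceBasis_of_lift_le_trdeg_of_finite
    rw [← htr]
    simp only [Cardinal.mk_fin, Cardinal.lift_natCast]
    exact_mod_cast hcard
  have e1 := hyb.1.aevalEquivField
  have e2 : IntermediateField.adjoin k (Set.range y) = ⊤ := by rw [hy, hadj]
  exact ⟨((e1.trans (IntermediateField.equivOfEq e2)).trans IntermediateField.topEquiv).symm⟩

end Pool.Agent.Helper98.KA
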