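import Mathlib
import Pool.Agent.Helper98.KA.RSide2
import Pool.Agent.Helper98.KA.NSide3

namespace Pool.Agent.Helper98.KA

open Module Matrix

/-- The rank does not drop under extension of the field. -/
theorem finrank_le_of_vmap {k F : Type*} [Field k] [Field F] [Algebra k F] {n : ℕ}
    (T : Set (Fin (n + 1) → k)) :
    finrank k (Submodule.span k T) ≤
      finrank F (Submodule.span F ((vmap (F := F)) '' T)) := by
  obtain ⟨f, hf, -, hli⟩ := Submodule.exists_fun_fin_finrank_span_eq k T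
  have hli' : LinearIndependent F (fun i => vmap (F := F) (f i)) :=
    (linearIndependent_algebraMap_comp_iff (S := F)).mpr hli
  have h1 := finrank_span_eq_card hli'
  rw [Fintype.card_fin] at h1
  rw [← h1]
  apply Submodule.finrank_mono
  apply Submodule.span_mono
  rintro _ ⟨i, rfl⟩
  exact ⟨f i, hf i, rfl⟩

/-- Adjoining roots keeps the transcendence basis. -/
theorem isTranscendenceBasis_of_roots {k F : Type*} [Field k] [Field F] [Algebra k F] {n r : ℕ}
    {x : Fin n → F} (hx : AlgebraicIndependent k x) (y : Fin r → F) (d : Fin r → ℕ)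
    (hd : ∀ j, 0 < d j) (hy : ∀ j, y j ^ d j ∈ Algebra.adjoin k (Set.range x))
    (hadj : IntermediateField.adjoin k (Set.range x ∪ Set.range y) = ⊤) :
    IsTranscendenceBasis k x := by
  rw [hx.isTranscendenceBasis_iff_isAlgebraic]
  refine ⟨fun a => ?_⟩
  have ha : a ∈ IntermediateField.adjoin k (Set.range x ∪ Set.range y) := by
    rw [hadj]; trivial
  induction ha using IntermediateField.adjoin_induction with
  | mem a ha =>
    rcases ha with ⟨i, rfl⟩ | ⟨j, rfl⟩
    · exact isAlgebraic_algebraMap (⟨x i, Algebra.subset_adjoin ⟨i, rfl⟩⟩ :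
        Algebra.adjoin k (Set.range x))
    · apply IsAlgebraic.of_pow (hd j)
      exact isAlgebraic_algebraMap (⟨y j ^ d j, hy j⟩ : Algebra.adjoin k (Set.range x))
  | algebraMap a =>
    exact isAlgebraic_algebraMap (algebraMap k (Algebra.adjoin k (Set.range x)) a)
  | add a b _ _ ha hb => exact ha.add hb
  | inv a _ ha => exact ha.inv
  | mul a b _ _ ha hb => exact ha.mul hb

/-- The blocks. -/
abbrev Blk {r : ℕ} (q : Fin r → ℕ) : Type := Σ j : Fin r, Fin (q j)

/-- The index of the base member of a block. -/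
def e0 {r : ℕ} {d q : Fin r → ℕ} (hd : ∀ j, 2 ≤ d j) (i : Blk q) : Hyp d q :=
  ⟨i.1, (i.2, ⟨0, by have := hd i.1; omega⟩)⟩

/-- The indices of the other members of a block. -/
def e1 {r : ℕ} {d q : Fin r → ℕ} (i : Blk q) (e : Fin (d i.1 - 1)) : Hyp d q :=
  ⟨i.1, (i.2, ⟨e.1 + 1, by have := e.2; omega⟩)⟩

theorem hyp_cases {r : ℕ} {d q : Fin r → ℕ} (hd : ∀ j, 2 ≤ d j) (h : Hyp d q) :
    h = e0 hd ⟨h.1, h.2.1⟩ ∨ ∃ e, h = e1 ⟨h.1, h.2.1⟩ e := by
  obtain ⟨j, a, ⟨e, he⟩⟩ := h
  rcases Nat.eq_zero_or_pos e with h0 | h0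
  · left
    subst h0
    rfl
  · right
    refine ⟨⟨e - 1, ?_⟩, ?_⟩
    · have : e - 1 < d j - 1 := by omega
      exact this
    · simp only [e1]
      congr 3
      omega

/-- The total weight of a set of blocks. -/
theorem sum_weight {r : ℕ} {d q : Fin r → ℕ} (hd : ∀ j, 2 ≤ d j) (G : Finset (Blk q)) :
    ∑ e ∈ Finset.univ.filter (fun h : Hyp d q => (⟨h.1, h.2.1⟩ : Blk q) ∈ G),
      (1 - 1 / (d e.1 : ℚ)) = ((∑ i ∈ G, (d i.1 - 1) : ℕ) : ℚ) := by
  classical
  rw [← Finset.sum_fiberwise_of_maps_to (g := fun h : Hyp d q => (⟨h.1, h.2.1⟩ : Blk q)) (t := G)]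
  · push_cast
    apply Finset.sum_congr rfl
    intro i hi
    have h1 : ∀ e ∈ (Finset.univ.filter
        (fun h : Hyp d q => (⟨h.1, h.2.1⟩ : Blk q) ∈ G)).filter
        (fun h => (⟨h.1, h.2.1⟩ : Blk q) = i), (1 - 1 / (d e.1 : ℚ)) = 1 - 1 / (d i.1 : ℚ) := by
      intro e he
      rw [Finset.mem_filter] at he
      have := congrArg Sigma.fst he.2
      simp only at this
      rw [this]
    rw [Finset.sum_congr rfl h1, Finset.sum_const]
    have h2 : ((Finset.univ.filter
        (fun h : Hyp d q => (⟨h.1, h.2.1⟩ : Blk q) ∈ G)).filter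
        (fun h => (⟨h.1, h.2.1⟩ : Blk q) = i)).card = d i.1 := by
      have : ((Finset.univ.filter
        (fun h : Hyp d q => (⟨h.1, h.2.1⟩ : Blk q) ∈ G)).filter
        (fun h => (⟨h.1, h.2.1⟩ : Blk q) = i)) =
        Finset.univ.map ⟨fun e : Fin (d i.1) => (⟨i.1, (i.2, e)⟩ : Hyp d q), by
          intro a b hab
          simpa using hab⟩ := by
        ext ⟨j, a, e⟩
        simp only [Finset.mem_filter, Finset.mem_univ, true_and, Finset.mem_map,
          Function.Embedding.coeFn_mk]
        constructor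
        · rintro ⟨_, rfl⟩
          exact ⟨e, rfl⟩
        · rintro ⟨e', he'⟩
          cases he'
          exact ⟨hi, rfl⟩
      rw [this, Finset.card_map, Finset.card_univ, Fintype.card_fin]
    rw [h2, nsmul_eq_mul]
    have h3 := hd i.1
    have h4 : (d i.1 : ℚ) ≠ 0 := by
      have : 0 < d i.1 := by omega
      exact_mod_cast this.ne'
    rw [Nat.cast_sub (by omega)]
    field_simp
    push_cast
    ring
  · intro h hh
    rw [Finset.mem_filter] at hh
    exact hh.2

end Pool.Agent.Helper98.KA
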