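import Mathlib
import Pool.Agent.Helper98.KA.RSide3

namespace Pool.Agent.Helper98.KA

open Module Matrix

theorem dot_pt {k F : Type*} [Field k] [Field F] [Algebra k F] {n : ℕ} (x : Fin n → F)
    (v : Fin (n + 1) → k) :
    vmap (F := F) v ⬝ᵥ pt x = algebraMap k F (v 0) + ∑ i : Fin n, algebraMap k F (v i.succ) * x i := by
  rw [dotProduct, Fin.sum_univ_succ]
  simp [vmap, pt]

theorem rational_of_klt {k F : Type*} [Field k] [CharZero k] [Field F] [Algebra k F]
    {n r : ℕ} (d q : Fin r → ℕ) (hd : ∀ j, 2 ≤ d j) (hq : ∀ j, 1 ≤ q j)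
    (c : Hyp d q → Fin (n + 1) → k)
    (hklt : IsKlt d q c) (hw : ∑ e : Hyp d q, (1 - 1 / (d e.1 : ℚ)) ≤ n)
    (x : Fin n → F) (hx : AlgebraicIndependent k x) (y : Fin r → F)
    (hy : ∀ j, y j ^ d j = ∏ ab, (algebraMap k F (c ⟨j, ab⟩ 0) +
      ∑ i : Fin n, algebraMap k F (c ⟨j, ab⟩ i.succ) * x i))
    (hadj : IntermediateField.adjoin k (Set.range x ∪ Set.range y) = ⊤) :
    ∃ m : ℕ, Nonempty (F ≃ₐ[k] FractionRing (MvPolynomial (Fin m) k)) := by
  classical
  -- the linear forms
  set l : Hyp d q → F := fun h => vmap (F := F) (c h) ⬝ᵥ pt x with hl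
  have hl0 : ∀ h, l h ≠ 0 := by
    intro h h0
    apply klt_ne_zero hd hklt h
    apply linform_ne_zero hx
    rw [← dot_pt]
    exact h0
  have hy' : ∀ j, y j ^ d j = ∏ ab, l ⟨j, ab⟩ := by
    intro j
    rw [hy j]
    apply Finset.prod_congr rfl
    intro ab _
    rw [hl]
    exact (dot_pt x _).symm
  have hladj : ∀ (E : IntermediateField k F), (∀ i, x i ∈ E) → ∀ h, l h ∈ E := by
    intro E hE h
    rw [hl]
    simp only [dot_pt]
    apply add_mem (E.algebraMap_mem _)
    apply sum_mem
    intro i _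
    exact mul_mem (E.algebraMap_mem _) (hE i)
  have htb : IsTranscendenceBasis k x := by
    apply isTranscendenceBasis_of_roots hx y d (fun j => by have := hd j; omega) _ hadj
    intro j
    rw [hy j]
    apply prod_mem
    intro ab _
    apply add_mem (Subalgebra.algebraMap_mem _ _)
    apply sum_mem
    intro i _
    exact mul_mem (Subalgebra.algebraMap_mem _ _) (Algebra.subset_adjoin ⟨i, rfl⟩)
  have hder : ∀ v : Fin n → F, ∃ δ : Derivation k F F, ∀ i, δ (x i) = v i :=
    fun v => exists_derivation htb v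
  -- the blocks
  let b : Blk q → Fin (n + 1) → k := fun i => c (e0 hd i)
  let M : Blk q → ℕ := fun i => d i.1 - 1
  let cc : (i : Blk q) → Fin (M i) → Fin (n + 1) → k := fun i e => c (e1 i e)
  have hb : ∀ i, vmap (F := F) (b i) ⬝ᵥ pt x ≠ 0 := fun i => hl0 (e0 hd i)
  have hM : (∑ i : Blk q, M i : ℕ) ≤ n := by
    have h1 := sum_weight hd (Finset.univ : Finset (Blk q))
    simp only [Finset.mem_univ, Finset.filter_true] at h1
    rw [h1] at hw
    exact_mod_cast hw
  have hsp : ∀ G : Finset (Blk q), G.Nonempty → ∑ i ∈ G, M i < finrank F (Ssp (F := F) b cc G) := by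
    intro G hG
    set S : Finset (Hyp d q) :=
      Finset.univ.filter (fun h : Hyp d q => (⟨h.1, h.2.1⟩ : Blk q) ∈ G) with hS
    have hSne : S.Nonempty := by
      obtain ⟨i, hi⟩ := hG
      refine ⟨e0 hd i, ?_⟩
      rw [hS, Finset.mem_filter]
      exact ⟨Finset.mem_univ _, hi⟩
    have h1 : Ssp (F := F) b cc G = Submodule.span F ((vmap (F := F)) '' (c '' (S : Set (Hyp d q)))) := by
      rw [Ssp]
      congr 1
      ext u
      constructor
      · rintro ⟨i, hi, rfl | ⟨e, rfl⟩⟩
        · refine ⟨_, ⟨e0 hd i, ?_, rfl⟩, rfl⟩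
          rw [Finset.mem_coe, hS, Finset.mem_filter]
          exact ⟨Finset.mem_univ _, hi⟩
        · refine ⟨_, ⟨e1 i e, ?_, rfl⟩, rfl⟩
          rw [Finset.mem_coe, hS, Finset.mem_filter]
          exact ⟨Finset.mem_univ _, hi⟩
      · rintro ⟨_, ⟨h, hh, rfl⟩, rfl⟩
        rw [Finset.mem_coe, hS, Finset.mem_filter] at hh
        refine ⟨⟨h.1, h.2.1⟩, hh.2, ?_⟩
        rcases hyp_cases hd h with h' | ⟨e, h'⟩
        · left
          change vmap (c h) = vmap (c (e0 hd ⟨h.1, h.2.1⟩))
          rw [← h']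
        · right
          refine ⟨e, ?_⟩
          change vmap (c h) = vmap (c (e1 ⟨h.1, h.2.1⟩ e))
          rw [← h']
    have h2 : finrank k (Submodule.span k (c '' (S : Set (Hyp d q)))) ≤
        finrank F (Ssp (F := F) b cc G) := by
      rw [h1]
      exact finrank_le_of_vmap _
    refine lt_of_lt_of_le ?_ h2
    by_cases hle : finrank k (Submodule.span k (c '' (S : Set (Hyp d q)))) ≤ n
    · have h3 := hklt S hSne hle
      rw [hS, sum_weight hd G] at h3
      exact_mod_cast h3
    · push Not at hle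
      refine lt_of_le_of_lt ?_ hle
      refine le_trans ?_ hM
      apply Finset.sum_le_sum_of_subset
      exact Finset.subset_univ G
  have hfr := (finrank_Usp hder hb hsp Finset.univ).1
  -- linear independence of the cuts
  let ι : Type := Σ i : Blk q, Fin (M i)
  let C : ι → Fin (n + 1) → F := fun p => cut x b cc p.1 p.2
  have hcard : Fintype.card ι = ∑ i : Blk q, M i := by
    simp [ι, Fintype.card_sigma, M]
  have hCli : LinearIndependent F C := by
    have hU : Usp x b cc Finset.univ = Submodule.span F (Set.range C) := by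
      rw [Usp]
      congr 1
      ext u
      constructor
      · rintro ⟨i, _, e, rfl⟩
        exact ⟨⟨i, e⟩, rfl⟩
      · rintro ⟨⟨i, e⟩, rfl⟩
        exact ⟨i, Finset.mem_univ _, e, rfl⟩
    rw [linearIndependent_iff_card_eq_finrank_span, hcard, ← hfr, hU]
    rfl
  let R : ι → F := fun p => ratio x b cc p.1 p.2
  have hR : ∀ p, R p = l (e1 p.1 p.2) / l (e0 hd p.1) := fun p => rfl
  have hR0 : ∀ p, R p ≠ 0 := fun p => div_ne_zero (hl0 _) (hl0 _)
  set E : IntermediateField k F := IntermediateField.adjoin k (Set.range R) with hEdef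
  have hE : ∀ p a, C p a ∈ E := by
    intro p a
    change algebraMap k F (cc p.1 p.2 a) - R p * algebraMap k F (b p.1 a) ∈ E
    apply sub_mem (E.algebraMap_mem _)
    apply mul_mem _ (E.algebraMap_mem _)
    exact IntermediateField.subset_adjoin k _ ⟨p, rfl⟩
  obtain ⟨s, hs1, hs2⟩ := solve E x C hE hCli (fun p => cut_dot hb p.1 p.2)
  -- the new generators
  let z : Fin r → F := fun j => y j / ∏ a : Fin (q j), l (e0 hd ⟨j, a⟩)
  let g : ι → F := fun p => if (p.1.2 : ℕ) = 0 ∧ (p.2 : ℕ) = 0 then z p.1.1 else R p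
  have hz : ∀ j, z j ^ d j = ∏ p : Fin (q j) × Fin (d j - 1), R ⟨⟨j, p.1⟩, p.2⟩ := by
    intro j
    change (y j / ∏ a : Fin (q j), l (e0 hd ⟨j, a⟩)) ^ d j = _
    rw [div_pow, hy' j, Fintype.prod_prod_type, Fintype.prod_prod_type, ← Finset.prod_pow,
      ← Finset.prod_div_distrib]
    apply Finset.prod_congr rfl
    intro a _
    have hdj : d j = (d j - 1) + 1 := by have := hd j; omega
    have h1 : ∏ e : Fin (d j), l ⟨j, (a, e)⟩ =
        l (e0 hd ⟨j, a⟩) * ∏ e : Fin (d j - 1), l (e1 ⟨j, a⟩ e) := by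
      have h2 : ∀ (D : ℕ) (hD : D = (d j - 1) + 1) (f : Fin D → F),
          ∏ e : Fin D, f e = f ⟨0, by omega⟩ * ∏ e : Fin (d j - 1), f ⟨e.1 + 1, by omega⟩ := by
        intro D hD f
        subst hD
        rw [Fin.prod_univ_succ]
        rfl
      exact h2 (d j) hdj (fun e => l ⟨j, (a, e)⟩)
    rw [h1]
    simp only [hR]
    rw [Finset.prod_div_distrib, Finset.prod_const, Finset.card_univ, Fintype.card_fin]
    have h3 : l (e0 hd ⟨j, a⟩) ^ d j = l (e0 hd ⟨j, a⟩) * l (e0 hd ⟨j, a⟩) ^ (d j - 1) := by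
      conv_lhs => rw [hdj]
      rw [pow_succ, mul_comm]
    rw [h3, mul_div_mul_left _ _ (hl0 _)]
  let T : Finset F := s ∪ Finset.univ.image g
  have hTcard : T.card ≤ n := by
    refine (Finset.card_union_le _ _).trans ?_
    have : (Finset.univ.image g).card ≤ Fintype.card ι := by
      refine Finset.card_image_le.trans ?_
      rw [Finset.card_univ]
    omega
  have hT : IntermediateField.adjoin k (T : Set F) = ⊤ := by
    set A := IntermediateField.adjoin k (T : Set F) with hA
    have hTA : ∀ a ∈ T, a ∈ A := fun a ha => IntermediateField.subset_adjoin k _ ha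
    have hgA : ∀ p, g p ∈ A := by
      intro p
      apply hTA
      apply Finset.mem_union_right
      exact Finset.mem_image_of_mem g (Finset.mem_univ p)
    let p0 : (j : Fin r) → ι := fun j =>
      ⟨⟨j, ⟨0, by have := hq j; omega⟩⟩, ⟨0, by have := hd j; simp only [M]; omega⟩⟩
    have hzA : ∀ j, z j ∈ A := by
      intro j
      have h := hgA (p0 j)
      simp only [g, p0] at h
      simpa using h
    have hRA' : ∀ p : ι, ¬ ((p.1.2 : ℕ) = 0 ∧ (p.2 : ℕ) = 0) → R p ∈ A := by
      intro p hp
      have h := hgA p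
      simp only [g] at h
      rw [if_neg hp] at h
      exact h
    have hRA : ∀ p, R p ∈ A := by
      intro p
      by_cases hp : (p.1.2 : ℕ) = 0 ∧ (p.2 : ℕ) = 0
      · obtain ⟨⟨j, a⟩, e⟩ := p
        obtain ⟨ha, he⟩ := hp
        simp only at ha he
        have h1 := hz j
        have h2 := Finset.mul_prod_erase (Finset.univ : Finset (Fin (q j) × Fin (d j - 1)))
          (fun p => R ⟨⟨j, p.1⟩, p.2⟩) (Finset.mem_univ (a, e))
        rw [← h1] at h2
        have h3 : ∏ p ∈ (Finset.univ : Finset (Fin (q j) × Fin (d j - 1))).erase (a, e),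
            R ⟨⟨j, p.1⟩, p.2⟩ ∈ A := by
          apply prod_mem
          rintro ⟨a', e'⟩ hp
          apply hRA'
          rintro ⟨ha', he'⟩
          apply Finset.ne_of_mem_erase hp
          simp only at ha' he'
          have h4 : a' = a := Fin.ext (by omega)
          have h5 : e' = e := Fin.ext (by omega)
          rw [h4, h5]
        have h4 : ∏ p ∈ (Finset.univ : Finset (Fin (q j) × Fin (d j - 1))).erase (a, e),
            R ⟨⟨j, p.1⟩, p.2⟩ ≠ 0 := Finset.prod_ne_zero_iff.mpr (fun p _ => hR0 _)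
        have h5 : R ⟨⟨j, a⟩, e⟩ = z j ^ d j /
          ∏ p ∈ (Finset.univ : Finset (Fin (q j) × Fin (d j - 1))).erase (a, e),
            R ⟨⟨j, p.1⟩, p.2⟩ := by
          rw [eq_div_iff h4]
          exact h2
        rw [h5]
        exact div_mem (pow_mem (hzA j) _) h3
      · exact hRA' p hp
    have hEA : E ≤ A := by
      rw [hEdef, IntermediateField.adjoin_le_iff]
      rintro _ ⟨p, rfl⟩
      exact hRA p
    have hxA : ∀ i, x i ∈ A := by
      intro i
      have h := hs2 i
      generalize x i = xi at h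
      induction h using Submodule.span_induction with
      | mem a ha =>
        rcases ha with rfl | ha
        · exact one_mem A
        · exact hTA a (Finset.mem_union_left _ ha)
      | zero => exact zero_mem A
      | add a b _ _ ha hb => exact add_mem ha hb
      | smul f a _ ha =>
        rw [Algebra.smul_def]
        exact mul_mem (hEA f.2) ha
    have hlA := hladj A hxA
    have hyA : ∀ j, y j ∈ A := by
      intro j
      have h1 : ∏ a : Fin (q j), l (e0 hd ⟨j, a⟩) ≠ 0 :=
        Finset.prod_ne_zero_iff.mpr (fun a _ => hl0 _)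
      have h2 : y j = z j * ∏ a : Fin (q j), l (e0 hd ⟨j, a⟩) := by
        change y j = (y j / ∏ a : Fin (q j), l (e0 hd ⟨j, a⟩)) * _
        rw [div_mul_cancel₀ _ h1]
      rw [h2]
      apply mul_mem (hzA j)
      apply prod_mem
      intro a _
      exact hlA _
    rw [eq_top_iff, ← hadj, IntermediateField.adjoin_le_iff]
    rintro _ (⟨i, rfl⟩ | ⟨j, rfl⟩)
    · exact hxA i
    · exact hyA j
  exact ⟨_, rational_of_gens htb T hTcard hT⟩

end Pool.Agent.Helper98.KA
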