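import Mathlib
import Pool.Agent.Helper98.KA.RSide4

namespace Pool.Agent.Results.MP_1dc56d_ag.KltArrangement

open Pool.Agent.Helper98.KA

/-- Let `k` be a field of characteristic zero (for instance the algebraic numbers), and let `F` be
the function field of the variety
`y_j ^ (d_j) = ∏_{a < q_j, b < d_j} ℓ_{j,a,b}(1, x_1, …, x_n)` (`j < r`),
where the `ℓ_{j,a,b}` are linear forms in `n + 1` variables, such that the pair consisting of
`ℙ^n` and the divisor `∑ (1 - 1 / d_j) {ℓ_{j,a,b} = 0}` is Kawamata log terminal. Then `F` is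
rational if and only if it is unirational, if and only if `∑ q_j (d_j - 1) ≤ n`. -/
theorem result {k F : Type*} [Field k] [CharZero k] [Field F] [Algebra k F] {n r : ℕ}
    (hn : 1 ≤ n) (d q : Fin r → ℕ) (hd : ∀ j, 2 ≤ d j) (hq : ∀ j, 1 ≤ q j)
    (c : Hyp d q → Fin (n + 1) → k) (hklt : IsKlt d q c)
    (x : Fin n → F) (hx : AlgebraicIndependent k x) (y : Fin r → F)
    (hy : ∀ j, y j ^ d j = ∏ ab : Fin (q j) × Fin (d j), (algebraMap k F (c ⟨j, ab⟩ 0) +
      ∑ i : Fin n, algebraMap k F (c ⟨j, ab⟩ i.succ) * x i))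
    (hadj : IntermediateField.adjoin k (Set.range x ∪ Set.range y) = ⊤) :
    List.TFAE [
      ∃ m : ℕ, Nonempty (F ≃ₐ[k] FractionRing (MvPolynomial (Fin m) k)),
      ∃ m : ℕ, Nonempty (F →ₐ[k] FractionRing (MvPolynomial (Fin m) k)),
      ∑ j, q j * (d j - 1) ≤ n] := by
  have hsum : ∑ e : Hyp d q, (1 - 1 / (d e.1 : ℚ)) = ((∑ j, q j * (d j - 1) : ℕ) : ℚ) := by
    have h := sum_weight hd (Finset.univ : Finset (Blk q))
    simp only [Finset.mem_univ, Finset.filter_true] at h
    rw [h]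
    congr 1
    rw [Fintype.sum_sigma]
    simp
  tfae_have 1 → 2 := by
    rintro ⟨m, ⟨e⟩⟩
    exact ⟨m, ⟨e.toAlgHom⟩⟩
  tfae_have 2 → 3 := by
    rintro ⟨m, ⟨φ⟩⟩
    by_contra hlt
    push Not at hlt
    refine not_unirational_aux (k := k) (L := FractionRing (MvPolynomial (Fin m) k)) (m := m)
      hn d q hd c hklt ?_ (fun i => φ (x i)) ?_ (fun j => φ (y j)) ?_
    · rw [hsum]
      exact_mod_cast hlt
    · exact hx.map' φ.injective
    · intro j
      rw [← map_pow, hy j, map_prod]
      apply Finset.prod_congr rfl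
      intro ab _
      simp only [map_add, map_sum, map_mul, AlgHom.commutes]
  tfae_have 3 → 1 := by
    intro hle
    refine rational_of_klt d q hd hq c hklt ?_ x hx y hy hadj
    rw [hsum]
    exact_mod_cast hle
  tfae_finish

end Pool.Agent.Results.MP_1dc56d_ag.KltArrangement
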